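import Mathlib

/-! # A Bessel type inequality for exponential sums with nonnegative coefficients -/

set_option autoImplicit false

open Finset

namespace Pool.Agent.Zk93.PC

variable {ι κ : Type*}

/-- the square of the modulus of `∑ p s e^(i α g s)` -/
noncomputable def Nq (Z : Finset ι) (p g : ι → ℝ) (α : ℝ) : ℝ :=
  ∑ s ∈ Z, ∑ s' ∈ Z, p s * p s' * Real.cos (α * (g s - g s'))

/-- the exponential sum -/
noncomputable def zz (Z : Finset ι) (p g : ι → ℝ) (α : ℝ) : ℂ :=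
  ∑ s ∈ Z, (p s : ℂ) * Complex.exp ((α * g s : ℝ) * Complex.I)

lemma zz_re (Z : Finset ι) (p g : ι → ℝ) (α : ℝ) :
    (zz Z p g α).re = ∑ s ∈ Z, p s * Real.cos (α * g s) := by
  unfold zz
  rw [Complex.re_sum]
  refine sum_congr rfl fun s _ => ?_
  rw [Complex.re_ofReal_mul, Complex.exp_ofReal_mul_I_re]

lemma zz_im (Z : Finset ι) (p g : ι → ℝ) (α : ℝ) :
    (zz Z p g α).im = ∑ s ∈ Z, p s * Real.sin (α * g s) := by
  unfold zz
  rw [Complex.im_sum]
  refine sum_congr rfl fun s _ => ?_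
  rw [Complex.im_ofReal_mul, Complex.exp_ofReal_mul_I_im]

lemma norm_zz (Z : Finset ι) (p g : ι → ℝ) (α : ℝ) : ‖zz Z p g α‖ ^ 2 = Nq Z p g α := by
  rw [Complex.sq_norm, Complex.normSq_apply, zz_re, zz_im, sum_mul_sum, sum_mul_sum,
    ← sum_add_distrib]
  unfold Nq
  refine sum_congr rfl fun s _ => ?_
  rw [← sum_add_distrib]
  refine sum_congr rfl fun s' _ => ?_
  rw [mul_sub, Real.cos_sub]
  ring

lemma norm_zz_le (Z : Finset ι) (p g : ι → ℝ) (hp : ∀ s ∈ Z, 0 ≤ p s) (α : ℝ) :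
    ‖zz Z p g α‖ ≤ ∑ s ∈ Z, p s := by
  unfold zz
  refine (norm_sum_le _ _).trans (sum_le_sum fun s hs => ?_)
  rw [norm_mul, Complex.norm_real, Real.norm_eq_abs, abs_of_nonneg (hp s hs),
    Complex.norm_exp_ofReal_mul_I, mul_one]

/-- the real inequality behind the theorem -/
lemma real_ineq [Fintype κ] [DecidableEq κ] (a : κ → ℝ) (G : κ → κ → ℝ) (P X : ℝ)
    (hP : 0 ≤ P) (hX : X = ∑ i, a i ^ 2)
    (h : X ^ 2 ≤ P * (P * X + ∑ i, ∑ j ∈ univ.erase i, a i * a j * G i j)) {t : ℝ} (ht : 0 < t) :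
    X ≤ (1 + t * (1 - 1 / Fintype.card κ) / 2) * P ^ 2 +
      1 / (2 * t) * ∑ i, ∑ j ∈ univ.erase i, G i j ^ 2 := by
  have hX0 : 0 ≤ X := by rw [hX]; positivity
  have hk : 0 ≤ 1 - 1 / (Fintype.card κ : ℝ) := by
    rcases Nat.eq_zero_or_pos (Fintype.card κ) with h0 | h0
    · rw [h0]; simp
    · have : (1 : ℝ) ≤ Fintype.card κ := by exact_mod_cast h0
      rw [sub_nonneg, div_le_one (by linarith)]
      exact this
  have hD0 : 0 ≤ ∑ i, ∑ j ∈ univ.erase i, G i j ^ 2 := by positivity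
  rcases hX0.eq_or_lt with h0 | hXp
  · rw [← h0]; positivity
  rcases hP.eq_or_lt with h0 | hPp
  · rw [← h0] at h
    nlinarith
  -- the off-diagonal sum
  have hoff : ∑ i, ∑ j ∈ univ.erase i, (a i * a j) ^ 2 ≤ (1 - 1 / Fintype.card κ) * X ^ 2 := by
    have e1 : ∑ i, ∑ j ∈ univ.erase i, (a i * a j) ^ 2 = X ^ 2 - ∑ i, a i ^ 4 := by
      have : ∀ i, ∑ j ∈ univ.erase i, (a i * a j) ^ 2 = a i ^ 2 * X - a i ^ 4 := by
        intro i
        have h2 := add_sum_erase univ (fun j => (a i * a j) ^ 2) (mem_univ i)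
        have h3 : ∑ j, (a i * a j) ^ 2 = a i ^ 2 * X := by
          rw [hX, mul_sum]
          exact sum_congr rfl fun j _ => by ring
        rw [h3] at h2
        linear_combination h2
      simp_rw [this]
      rw [sum_sub_distrib, ← sum_mul, ← hX]
      ring
    rw [e1]
    have e2 : X ^ 2 ≤ Fintype.card κ * ∑ i, a i ^ 4 := by
      have := sq_sum_le_card_mul_sum_sq (s := (univ : Finset κ)) (f := fun i => a i ^ 2)
      rw [← hX, card_univ] at this
      refine this.trans (le_of_eq ?_)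
      congr 1
      exact sum_congr rfl fun i _ => by ring
    have hc : 0 < (Fintype.card κ : ℝ) := by
      rcases Nat.eq_zero_or_pos (Fintype.card κ) with h0 | h0
      · rw [h0] at e2; simp at e2; nlinarith
      · exact_mod_cast h0
    have e3 : X ^ 2 / Fintype.card κ ≤ ∑ i, a i ^ 4 := by
      rw [div_le_iff₀ hc]; linarith
    have e4 : (1 - 1 / (Fintype.card κ : ℝ)) * X ^ 2 = X ^ 2 - X ^ 2 / Fintype.card κ := by ring
    rw [e4]
    linarith
  set μ : ℝ := t * P / X with hμ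
  have hμ0 : 0 < μ := by rw [hμ]; positivity
  have h1 : ∑ i, ∑ j ∈ univ.erase i, a i * a j * G i j ≤
      μ / 2 * ∑ i, ∑ j ∈ univ.erase i, (a i * a j) ^ 2 +
        1 / (2 * μ) * ∑ i, ∑ j ∈ univ.erase i, G i j ^ 2 := by
    rw [mul_sum, mul_sum, ← sum_add_distrib]
    refine sum_le_sum fun i _ => ?_
    rw [mul_sum, mul_sum, ← sum_add_distrib]
    refine sum_le_sum fun j _ => ?_
    have h2 : 0 ≤ (μ * (a i * a j) - G i j) ^ 2 / (2 * μ) := by positivity
    have h3 : (μ * (a i * a j) - G i j) ^ 2 / (2 * μ) =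
        μ / 2 * (a i * a j) ^ 2 + 1 / (2 * μ) * G i j ^ 2 - a i * a j * G i j := by
      field_simp
      ring
    linarith
  have h2 : ∑ i, ∑ j ∈ univ.erase i, a i * a j * G i j ≤
      μ / 2 * ((1 - 1 / Fintype.card κ) * X ^ 2) +
        1 / (2 * μ) * ∑ i, ∑ j ∈ univ.erase i, G i j ^ 2 :=
    h1.trans (by gcongr)
  set D := ∑ i, ∑ j ∈ univ.erase i, G i j ^ 2
  have h3 : X ^ 2 ≤ P * (P * X + (μ / 2 * ((1 - 1 / Fintype.card κ) * X ^ 2) +
        1 / (2 * μ) * D)) := h.trans (by gcongr)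
  have h4 : P * (P * X + (μ / 2 * ((1 - 1 / Fintype.card κ) * X ^ 2) + 1 / (2 * μ) * D)) =
      X * ((1 + t * (1 - 1 / Fintype.card κ) / 2) * P ^ 2 + 1 / (2 * t) * D) := by
    rw [hμ]
    field_simp
    ring
  rw [h4, sq] at h3
  exact le_of_mul_le_mul_left h3 hXp

theorem bessel [Fintype κ] [DecidableEq κ] (Z : Finset ι) (p g : ι → ℝ) (hp : ∀ s ∈ Z, 0 ≤ p s)
    (α : κ → ℝ) {t : ℝ} (ht : 0 < t) :
    ∑ i, Nq Z p g (α i) ≤ (1 + t * (1 - 1 / Fintype.card κ) / 2) * Nq Z p g 0 +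
      1 / (2 * t) * ∑ i, ∑ j ∈ univ.erase i, Nq Z p g (α i - α j) := by
  set P := ∑ s ∈ Z, p s with hPdef
  have hP : 0 ≤ P := sum_nonneg hp
  have hP2 : Nq Z p g 0 = P ^ 2 := by
    unfold Nq
    rw [sq, hPdef, sum_mul_sum]
    refine sum_congr rfl fun s _ => sum_congr rfl fun s' _ => ?_
    rw [zero_mul, Real.cos_zero, mul_one]
  rw [hP2]
  simp_rw [← norm_zz]
  refine real_ineq (fun i => ‖zz Z p g (α i)‖) (fun i j => ‖zz Z p g (α i - α j)‖) P _ hP rfl ?_ ht
  set z : κ → ℂ := fun i => zz Z p g (α i) with hz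
  set X : ℝ := ∑ i, ‖z i‖ ^ 2 with hX
  show X ^ 2 ≤ P * (P * X + ∑ i, ∑ j ∈ univ.erase i, ‖z i‖ * ‖z j‖ * ‖zz Z p g (α i - α j)‖)
  -- the vector
  set y : ι → ℂ := fun s => ∑ i, (starRingEnd ℂ) (z i) * Complex.exp ((α i * g s : ℝ) * Complex.I)
    with hy
  have h1 : ((X : ℝ) : ℂ) = ∑ s ∈ Z, (p s : ℂ) * y s := by
    rw [hX]
    push_cast
    have : ∀ i, ((‖z i‖ : ℝ) : ℂ) ^ 2 = (starRingEnd ℂ) (z i) * z i := by
      intro i
      rw [mul_comm, Complex.mul_conj, Complex.normSq_eq_norm_sq]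
      push_cast; rfl
    simp_rw [this]
    have h2 : ∀ i, (starRingEnd ℂ) (z i) * z i =
        ∑ s ∈ Z, (p s : ℂ) * ((starRingEnd ℂ) (z i) * Complex.exp ((α i * g s : ℝ) * Complex.I)) := by
      intro i
      conv_lhs => rw [show z i = zz Z p g (α i) from rfl]
      rw [show (starRingEnd ℂ) (zz Z p g (α i)) = (starRingEnd ℂ) (z i) from rfl]
      unfold zz
      rw [mul_sum]
      refine sum_congr rfl fun s _ => ?_
      ring
    simp_rw [h2]
    rw [sum_comm]
    refine sum_congr rfl fun s _ => ?_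
    rw [hy, mul_sum]
  have h2 : X ≤ ∑ s ∈ Z, p s * ‖y s‖ := by
    have hX0 : 0 ≤ X := by positivity
    calc X = ‖((X : ℝ) : ℂ)‖ := by rw [Complex.norm_real, Real.norm_eq_abs, abs_of_nonneg hX0]
      _ = ‖∑ s ∈ Z, (p s : ℂ) * y s‖ := by rw [h1]
      _ ≤ ∑ s ∈ Z, ‖(p s : ℂ) * y s‖ := norm_sum_le _ _
      _ = _ := by
        refine sum_congr rfl fun s hs => ?_
        rw [norm_mul, Complex.norm_real, Real.norm_eq_abs, abs_of_nonneg (hp s hs)]
  have h3 : (∑ s ∈ Z, p s * ‖y s‖) ^ 2 ≤ P * ∑ s ∈ Z, p s * ‖y s‖ ^ 2 := by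
    have := sum_mul_sq_le_sq_mul_sq Z (fun s => Real.sqrt (p s)) (fun s => Real.sqrt (p s) * ‖y s‖)
    have e1 : ∑ s ∈ Z, Real.sqrt (p s) * (Real.sqrt (p s) * ‖y s‖) = ∑ s ∈ Z, p s * ‖y s‖ := by
      refine sum_congr rfl fun s hs => ?_
      rw [← mul_assoc, Real.mul_self_sqrt (hp s hs)]
    have e2 : ∑ s ∈ Z, Real.sqrt (p s) ^ 2 = P :=
      sum_congr rfl fun s hs => Real.sq_sqrt (hp s hs)
    have e3 : ∑ s ∈ Z, (Real.sqrt (p s) * ‖y s‖) ^ 2 = ∑ s ∈ Z, p s * ‖y s‖ ^ 2 := by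
      refine sum_congr rfl fun s hs => ?_
      rw [mul_pow, Real.sq_sqrt (hp s hs)]
    rw [e1, e2, e3] at this
    exact this
  have h4 : ((∑ s ∈ Z, p s * ‖y s‖ ^ 2 : ℝ) : ℂ) =
      ∑ i, ∑ j, (starRingEnd ℂ) (z i) * z j * zz Z p g (α i - α j) := by
    push_cast
    have : ∀ s, (p s : ℂ) * ((‖y s‖ : ℝ) : ℂ) ^ 2 = ∑ i, ∑ j, (starRingEnd ℂ) (z i) * z j *
        ((p s : ℂ) * Complex.exp (((α i - α j) * g s : ℝ) * Complex.I)) := by
      intro s
      have e1 : ((‖y s‖ : ℝ) : ℂ) ^ 2 = y s * (starRingEnd ℂ) (y s) := by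
        rw [Complex.mul_conj, Complex.normSq_eq_norm_sq]
        push_cast; rfl
      have e2 : (starRingEnd ℂ) (y s) =
          ∑ j, z j * Complex.exp (-((α j * g s : ℝ) * Complex.I)) := by
        rw [hy]
        simp only [map_sum, map_mul, Complex.conj_conj]
        refine sum_congr rfl fun j _ => ?_
        rw [← Complex.exp_conj]
        congr 2
        rw [map_mul, Complex.conj_I, Complex.conj_ofReal]
        ring
      rw [e1, e2, hy, sum_mul_sum, mul_sum]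
      refine sum_congr rfl fun i _ => ?_
      rw [mul_sum]
      refine sum_congr rfl fun j _ => ?_
      have e3 : Complex.exp (((α i - α j) * g s : ℝ) * Complex.I) =
          Complex.exp ((α i * g s : ℝ) * Complex.I) *
            Complex.exp (-((α j * g s : ℝ) * Complex.I)) := by
        rw [← Complex.exp_add]
        congr 1
        push_cast
        ring
      rw [e3]
      ring
    simp_rw [this]
    rw [sum_comm]
    refine sum_congr rfl fun i _ => ?_
    rw [sum_comm]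
    refine sum_congr rfl fun j _ => ?_
    unfold zz
    rw [mul_sum]
  have h5 : ∑ s ∈ Z, p s * ‖y s‖ ^ 2 ≤
      P * X + ∑ i, ∑ j ∈ univ.erase i, ‖z i‖ * ‖z j‖ * ‖zz Z p g (α i - α j)‖ := by
    have h0 : 0 ≤ ∑ s ∈ Z, p s * ‖y s‖ ^ 2 :=
      sum_nonneg fun s hs => mul_nonneg (hp s hs) (by positivity)
    calc ∑ s ∈ Z, p s * ‖y s‖ ^ 2 = ‖((∑ s ∈ Z, p s * ‖y s‖ ^ 2 : ℝ) : ℂ)‖ := by
          rw [Complex.norm_real, Real.norm_eq_abs, abs_of_nonneg h0]
      _ ≤ ∑ i, ∑ j, ‖z i‖ * ‖z j‖ * ‖zz Z p g (α i - α j)‖ := by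
          rw [h4]
          refine (norm_sum_le _ _).trans (sum_le_sum fun i _ => ?_)
          refine (norm_sum_le _ _).trans (sum_le_sum fun j _ => ?_)
          rw [norm_mul, norm_mul, RCLike.norm_conj]
      _ ≤ ∑ i, (P * ‖z i‖ ^ 2 +
          ∑ j ∈ univ.erase i, ‖z i‖ * ‖z j‖ * ‖zz Z p g (α i - α j)‖) := by
          refine sum_le_sum fun i _ => ?_
          rw [← add_sum_erase univ _ (mem_univ i)]
          refine add_le_add ?_ le_rfl
          rw [sub_self]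
          have := norm_zz_le Z p g hp 0
          have h1 := norm_nonneg (z i)
          nlinarith [mul_nonneg h1 h1]
      _ = _ := by
          rw [sum_add_distrib, ← mul_sum]
  have hX0 : 0 ≤ X := by positivity
  calc X ^ 2 ≤ (∑ s ∈ Z, p s * ‖y s‖) ^ 2 := by gcongr
    _ ≤ P * ∑ s ∈ Z, p s * ‖y s‖ ^ 2 := h3
    _ ≤ _ := by gcongr

/-- optimization of the parameter -/
lemma optimize {A B c D : ℝ} (hB : 0 ≤ B) (hc : 0 ≤ c) (hD : 0 ≤ D)
    (h : ∀ t : ℝ, 0 < t → A ≤ (1 + t * c / 2) * B + 1 / (2 * t) * D) :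
    A ≤ B + Real.sqrt (c * B * D) := by
  have hcB : 0 ≤ c * B := mul_nonneg hc hB
  rcases hcB.eq_or_lt with h0 | h1
  · -- no first term
    refine le_of_forall_pos_le_add fun ε hε => ?_
    have h2 := h ((D + 1) / ε) (by positivity)
    have h3 : (1 + (D + 1) / ε * c / 2) * B = B + (D + 1) / ε / 2 * (c * B) := by ring
    rw [h3, ← h0] at h2
    have h4 : 1 / (2 * ((D + 1) / ε)) * D ≤ ε := by
      rw [one_div, mul_comm, ← div_eq_mul_inv, div_le_iff₀ (by positivity)]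
      have : ε * (2 * ((D + 1) / ε)) = 2 * (D + 1) := by field_simp
      rw [this]; linarith
    have h5 := Real.sqrt_nonneg (c * B * D)
    linarith
  rcases hD.eq_or_lt with h0 | h2
  · refine le_of_forall_pos_le_add fun ε hε => ?_
    have h3 := h (ε / (c * B)) (by positivity)
    rw [← h0, mul_zero, add_zero] at h3
    have h4 : (1 + ε / (c * B) * c / 2) * B = B + ε / 2 := by
      have hB' : B ≠ 0 := by rintro rfl; simp at h1
      have hc' : c ≠ 0 := by rintro rfl; simp at h1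
      field_simp
    rw [h4] at h3
    have h5 := Real.sqrt_nonneg (c * B * D)
    linarith
  · set r := Real.sqrt (c * B * D) with hr
    have hr0 : 0 < r := Real.sqrt_pos.2 (by positivity)
    have hr2 : r ^ 2 = c * B * D := Real.sq_sqrt (by positivity)
    have h3 := h (r / (c * B)) (by positivity)
    have h4 : (1 + r / (c * B) * c / 2) * B = B + r / 2 := by
      have hB' : B ≠ 0 := by rintro rfl; simp at h1
      have hc' : c ≠ 0 := by rintro rfl; simp at h1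
      field_simp
    have h5 : 1 / (2 * (r / (c * B))) * D = r / 2 := by
      have hB' : B ≠ 0 := by rintro rfl; simp at h1
      have hc' : c ≠ 0 := by rintro rfl; simp at h1
      field_simp
      linarith
    rw [h4, h5] at h3
    linarith

end Pool.Agent.Zk93.PC
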