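import Pool.Agent.Zk93.PC.Bes

/-! # The inequality for Gaussian weights and for mixtures of Gaussian weights -/

set_option autoImplicit false

open Finset MeasureTheory Set

namespace Pool.Agent.Zk93.PC

variable {ι κ : Type*}

/-- the quadratic form with the weight `W` -/
noncomputable def EW (W : ℝ → ℝ) (Z : Finset ι) (m g : ι → ℝ) (α : ℝ) : ℝ :=
  ∑ s ∈ Z, ∑ s' ∈ Z, m s * m s' * (Real.cos (α * (g s - g s')) * W (g s - g s'))

lemma gconv_eq (σ a b t : ℝ) : Real.exp (-(2 * σ * (t - a) ^ 2)) * Real.exp (-(2 * σ * (t - b) ^ 2)) =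
    Real.exp (-(σ * (a - b) ^ 2)) * Real.exp (-(4 * σ) * (t - (a + b) / 2) ^ 2) := by
  rw [← Real.exp_add, ← Real.exp_add]
  congr 1
  ring

lemma gconv_int {σ : ℝ} (hσ : 0 < σ) (a b : ℝ) : Integrable fun t : ℝ =>
    Real.exp (-(2 * σ * (t - a) ^ 2)) * Real.exp (-(2 * σ * (t - b) ^ 2)) := by
  simp_rw [gconv_eq]
  refine Integrable.const_mul ?_ _
  exact (integrable_exp_neg_mul_sq (show 0 < 4 * σ by positivity)).comp_sub_right ((a + b) / 2)

lemma gconv {σ : ℝ} (a b : ℝ) :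
    ∫ t : ℝ, Real.exp (-(2 * σ * (t - a) ^ 2)) * Real.exp (-(2 * σ * (t - b) ^ 2)) =
      Real.sqrt (Real.pi / (4 * σ)) * Real.exp (-(σ * (a - b) ^ 2)) := by
  simp_rw [gconv_eq]
  rw [integral_const_mul, integral_sub_right_eq_self (fun t => Real.exp (-(4 * σ) * t ^ 2)),
    integral_gaussian]
  ring

lemma Nq_gauss (Z : Finset ι) (m g : ι → ℝ) (α : ℝ) {σ : ℝ} (hσ : 0 < σ) :
    (Integrable fun t : ℝ => Nq Z (fun s => m s * Real.exp (-(2 * σ * (t - g s) ^ 2))) g α) ∧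
    ∫ t : ℝ, Nq Z (fun s => m s * Real.exp (-(2 * σ * (t - g s) ^ 2))) g α =
      Real.sqrt (Real.pi / (4 * σ)) * EW (fun u => Real.exp (-(σ * u ^ 2))) Z m g α := by
  have e : ∀ t : ℝ, Nq Z (fun s => m s * Real.exp (-(2 * σ * (t - g s) ^ 2))) g α =
      ∑ s ∈ Z, ∑ s' ∈ Z, (m s * m s' * Real.cos (α * (g s - g s'))) *
        (Real.exp (-(2 * σ * (t - g s) ^ 2)) * Real.exp (-(2 * σ * (t - g s') ^ 2))) := by
    intro t
    unfold Nq
    refine sum_congr rfl fun s _ => sum_congr rfl fun s' _ => ?_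
    ring
  simp_rw [e]
  have hi : ∀ s ∈ Z, ∀ s' ∈ Z, Integrable fun t : ℝ =>
      (m s * m s' * Real.cos (α * (g s - g s'))) *
        (Real.exp (-(2 * σ * (t - g s) ^ 2)) * Real.exp (-(2 * σ * (t - g s') ^ 2))) :=
    fun s _ s' _ => (gconv_int hσ _ _).const_mul _
  refine ⟨integrable_finsetSum _ fun s hs => integrable_finsetSum _ fun s' hs' => hi s hs s' hs', ?_⟩
  rw [integral_finsetSum _ fun s hs => integrable_finsetSum _ fun s' hs' => hi s hs s' hs']
  unfold EW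
  rw [mul_sum]
  refine sum_congr rfl fun s hs => ?_
  rw [integral_finsetSum _ fun s' hs' => hi s hs s' hs', mul_sum]
  refine sum_congr rfl fun s' _ => ?_
  rw [integral_const_mul, gconv]
  ring

theorem bes_gauss [Fintype κ] [DecidableEq κ] (Z : Finset ι) (m g : ι → ℝ) (hm : ∀ s ∈ Z, 0 ≤ m s)
    (α : κ → ℝ) {t : ℝ} (ht : 0 < t) {σ : ℝ} (hσ : 0 < σ) :
    ∑ i, EW (fun u => Real.exp (-(σ * u ^ 2))) Z m g (α i) ≤
      (1 + t * (1 - 1 / Fintype.card κ) / 2) * EW (fun u => Real.exp (-(σ * u ^ 2))) Z m g 0 +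
      1 / (2 * t) * ∑ i, ∑ j ∈ univ.erase i,
        EW (fun u => Real.exp (-(σ * u ^ 2))) Z m g (α i - α j) := by
  set C := Real.sqrt (Real.pi / (4 * σ)) with hC
  have hC0 : 0 < C := Real.sqrt_pos.2 (by have := Real.pi_pos; positivity)
  have key : ∫ x : ℝ, ∑ i, Nq Z (fun s => m s * Real.exp (-(2 * σ * (x - g s) ^ 2))) g (α i) ≤
      ∫ x : ℝ, ((1 + t * (1 - 1 / Fintype.card κ) / 2) *
        Nq Z (fun s => m s * Real.exp (-(2 * σ * (x - g s) ^ 2))) g 0 +
      1 / (2 * t) * ∑ i, ∑ j ∈ univ.erase i,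
        Nq Z (fun s => m s * Real.exp (-(2 * σ * (x - g s) ^ 2))) g (α i - α j)) := by
    refine integral_mono ?_ ?_ fun x => ?_
    · exact integrable_finsetSum _ fun i _ => (Nq_gauss Z m g (α i) hσ).1
    · refine ((Nq_gauss Z m g 0 hσ).1.const_mul _).add (Integrable.const_mul ?_ _)
      exact integrable_finsetSum _ fun i _ => integrable_finsetSum _ fun j _ =>
        (Nq_gauss Z m g (α i - α j) hσ).1
    · exact bessel Z _ g (fun s hs => mul_nonneg (hm s hs) (Real.exp_pos _).le) α ht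
  rw [integral_finsetSum _ fun i _ => (Nq_gauss Z m g (α i) hσ).1,
    integral_add ((Nq_gauss Z m g 0 hσ).1.const_mul _) (Integrable.const_mul
      (integrable_finsetSum _ fun i _ => integrable_finsetSum _ fun j _ =>
        (Nq_gauss Z m g (α i - α j) hσ).1) _), integral_const_mul, integral_const_mul,
    integral_finsetSum _ fun i _ => integrable_finsetSum _ fun j _ =>
        (Nq_gauss Z m g (α i - α j) hσ).1, (Nq_gauss Z m g 0 hσ).2] at key
  simp_rw [(Nq_gauss Z m g _ hσ).2] at key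
  have e1 : ∀ i, ∫ x : ℝ, ∑ j ∈ univ.erase i,
      Nq Z (fun s => m s * Real.exp (-(2 * σ * (x - g s) ^ 2))) g (α i - α j) =
      C * ∑ j ∈ univ.erase i, EW (fun u => Real.exp (-(σ * u ^ 2))) Z m g (α i - α j) := by
    intro i
    rw [integral_finsetSum _ fun j _ => (Nq_gauss Z m g (α i - α j) hσ).1, mul_sum]
    exact sum_congr rfl fun j _ => (Nq_gauss Z m g (α i - α j) hσ).2
  simp_rw [e1] at key
  rw [← mul_sum, ← mul_sum] at key
  have e2 : (1 + t * (1 - 1 / Fintype.card κ) / 2) *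
      (C * EW (fun u => Real.exp (-(σ * u ^ 2))) Z m g 0) +
      1 / (2 * t) * (C * ∑ i, ∑ j ∈ univ.erase i,
        EW (fun u => Real.exp (-(σ * u ^ 2))) Z m g (α i - α j)) =
      C * ((1 + t * (1 - 1 / Fintype.card κ) / 2) * EW (fun u => Real.exp (-(σ * u ^ 2))) Z m g 0 +
      1 / (2 * t) * ∑ i, ∑ j ∈ univ.erase i,
        EW (fun u => Real.exp (-(σ * u ^ 2))) Z m g (α i - α j)) := by ring
  rw [e2] at key
  exact le_of_mul_le_mul_left key hC0

/-- the weight -/
noncomputable def wc (c u : ℝ) : ℝ := 4 / (4 + u ^ 2) * Real.exp (-(c * u ^ 2))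

lemma mix_int (c u : ℝ) : IntegrableOn (fun s : ℝ => 4 * Real.exp (-(4 * s)) *
    Real.exp (-((s + c) * u ^ 2))) (Ioi 0) := by
  have h : ∀ s : ℝ, 4 * Real.exp (-(4 * s)) * Real.exp (-((s + c) * u ^ 2)) =
      4 * Real.exp (-(c * u ^ 2)) * Real.exp (-(4 + u ^ 2) * s) := by
    intro s
    rw [mul_assoc, mul_assoc, ← Real.exp_add, ← Real.exp_add]
    congr 2
    ring
  simp_rw [h]
  refine Integrable.const_mul ?_ _
  exact integrableOn_exp_mul_Ioi (by nlinarith [sq_nonneg u]) 0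

lemma mix_eq (c u : ℝ) : ∫ s in Ioi (0 : ℝ), 4 * Real.exp (-(4 * s)) *
    Real.exp (-((s + c) * u ^ 2)) = wc c u := by
  have h : ∀ s : ℝ, 4 * Real.exp (-(4 * s)) * Real.exp (-((s + c) * u ^ 2)) =
      4 * Real.exp (-(c * u ^ 2)) * Real.exp (-(4 + u ^ 2) * s) := by
    intro s
    rw [mul_assoc, mul_assoc, ← Real.exp_add, ← Real.exp_add]
    congr 2
    ring
  simp_rw [h]
  rw [integral_const_mul, integral_exp_mul_Ioi (by nlinarith [sq_nonneg u]) 0]
  unfold wc
  rw [mul_zero, Real.exp_zero]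
  have : (4 : ℝ) + u ^ 2 ≠ 0 := by positivity
  field_simp

lemma EW_mix (Z : Finset ι) (m g : ι → ℝ) (α c : ℝ) :
    (IntegrableOn (fun s : ℝ => 4 * Real.exp (-(4 * s)) *
      EW (fun u => Real.exp (-((s + c) * u ^ 2))) Z m g α) (Ioi 0)) ∧
    ∫ s in Ioi (0 : ℝ), 4 * Real.exp (-(4 * s)) *
      EW (fun u => Real.exp (-((s + c) * u ^ 2))) Z m g α = EW (wc c) Z m g α := by
  have e : ∀ s : ℝ, 4 * Real.exp (-(4 * s)) * EW (fun u => Real.exp (-((s + c) * u ^ 2))) Z m g α =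
      ∑ a ∈ Z, ∑ b ∈ Z, (m a * m b * Real.cos (α * (g a - g b))) *
        (4 * Real.exp (-(4 * s)) * Real.exp (-((s + c) * (g a - g b) ^ 2))) := by
    intro s
    unfold EW
    rw [mul_sum]
    refine sum_congr rfl fun a _ => ?_
    rw [mul_sum]
    refine sum_congr rfl fun b _ => ?_
    ring
  simp_rw [e]
  have hi : ∀ a ∈ Z, ∀ b ∈ Z, IntegrableOn (fun s : ℝ =>
      (m a * m b * Real.cos (α * (g a - g b))) *
        (4 * Real.exp (-(4 * s)) * Real.exp (-((s + c) * (g a - g b) ^ 2)))) (Ioi 0) :=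
    fun a _ b _ => (mix_int c _).const_mul _
  refine ⟨integrable_finsetSum _ fun s hs => integrable_finsetSum _ fun s' hs' => hi s hs s' hs', ?_⟩
  rw [integral_finsetSum _ fun s hs => integrable_finsetSum _ fun s' hs' => hi s hs s' hs']
  unfold EW
  refine sum_congr rfl fun s hs => ?_
  rw [integral_finsetSum _ fun s' hs' => hi s hs s' hs']
  refine sum_congr rfl fun s' _ => ?_
  rw [integral_const_mul, mix_eq]
  ring

theorem bes_wc [Fintype κ] [DecidableEq κ] (Z : Finset ι) (m g : ι → ℝ) (hm : ∀ s ∈ Z, 0 ≤ m s)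
    (α : κ → ℝ) {t : ℝ} (ht : 0 < t) {c : ℝ} (hc : 0 ≤ c) :
    ∑ i, EW (wc c) Z m g (α i) ≤
      (1 + t * (1 - 1 / Fintype.card κ) / 2) * EW (wc c) Z m g 0 +
      1 / (2 * t) * ∑ i, ∑ j ∈ univ.erase i, EW (wc c) Z m g (α i - α j) := by
  have hi := fun β => (EW_mix Z m g β c).1
  have he := fun β => (EW_mix Z m g β c).2
  have key : ∫ s in Ioi (0 : ℝ), ∑ i, 4 * Real.exp (-(4 * s)) *
      EW (fun u => Real.exp (-((s + c) * u ^ 2))) Z m g (α i) ≤
      ∫ s in Ioi (0 : ℝ), ((1 + t * (1 - 1 / Fintype.card κ) / 2) * (4 * Real.exp (-(4 * s)) *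
        EW (fun u => Real.exp (-((s + c) * u ^ 2))) Z m g 0) +
      1 / (2 * t) * ∑ i, ∑ j ∈ univ.erase i, 4 * Real.exp (-(4 * s)) *
        EW (fun u => Real.exp (-((s + c) * u ^ 2))) Z m g (α i - α j)) := by
    refine setIntegral_mono_on ?_ ?_ measurableSet_Ioi fun s hs => ?_
    · exact integrable_finsetSum _ fun i _ => hi (α i)
    · refine ((hi 0).const_mul _).add (Integrable.const_mul ?_ _)
      exact integrable_finsetSum _ fun i _ => integrable_finsetSum _ fun j _ => hi (α i - α j)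
    · have hs0 : 0 < s := hs
      have h := bes_gauss Z m g hm α ht (show 0 < s + c by linarith)
      have hpos : 0 ≤ 4 * Real.exp (-(4 * s)) := by positivity
      have h2 := mul_le_mul_of_nonneg_left h hpos
      rw [mul_sum] at h2
      refine h2.trans (le_of_eq ?_)
      simp_rw [← mul_sum]
      ring
  rw [integral_finsetSum _ fun i _ => hi (α i),
    integral_add ((hi 0).const_mul _) (Integrable.const_mul
      (integrable_finsetSum _ fun i _ => integrable_finsetSum _ fun j _ => hi (α i - α j)) _),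
    integral_const_mul, integral_const_mul,
    integral_finsetSum _ fun i _ => integrable_finsetSum _ fun j _ => hi (α i - α j), he 0] at key
  simp_rw [he] at key
  have e1 : ∀ i, ∫ s in Ioi (0 : ℝ), ∑ j ∈ univ.erase i, 4 * Real.exp (-(4 * s)) *
      EW (fun u => Real.exp (-((s + c) * u ^ 2))) Z m g (α i - α j) =
      ∑ j ∈ univ.erase i, EW (wc c) Z m g (α i - α j) := by
    intro i
    rw [integral_finsetSum _ fun j _ => hi (α i - α j)]
    exact sum_congr rfl fun j _ => he _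
  simp_rw [e1] at key
  exact key

/-- the form is nonnegative -/
lemma EW_nonneg (Z : Finset ι) (m g : ι → ℝ) (α : ℝ) {c : ℝ} (hc : 0 ≤ c) :
    0 ≤ EW (wc c) Z m g α := by
  rw [← (EW_mix Z m g α c).2]
  refine setIntegral_nonneg measurableSet_Ioi fun s hs => ?_
  have hs0 : 0 < s := hs
  refine mul_nonneg (by positivity) ?_
  have h := (Nq_gauss Z m g α (show 0 < s + c by linarith)).2
  have hC0 : 0 < Real.sqrt (Real.pi / (4 * (s + c))) :=
    Real.sqrt_pos.2 (by have := Real.pi_pos; positivity)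
  have h2 : 0 ≤ Real.sqrt (Real.pi / (4 * (s + c))) *
      EW (fun u => Real.exp (-((s + c) * u ^ 2))) Z m g α := by
    rw [← h]
    refine integral_nonneg fun x => ?_
    rw [Pi.zero_apply, ← norm_zz]
    positivity
  exact nonneg_of_mul_nonneg_right h2 hC0

theorem bes_sqrt [Fintype κ] [DecidableEq κ] [Nonempty κ] (Z : Finset ι) (m g : ι → ℝ)
    (hm : ∀ s ∈ Z, 0 ≤ m s) (α : κ → ℝ) {c : ℝ} (hc : 0 ≤ c) :
    ∑ i, EW (wc c) Z m g (α i) ≤ EW (wc c) Z m g 0 +
      Real.sqrt ((1 - 1 / Fintype.card κ) * EW (wc c) Z m g 0 *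
        ∑ i, ∑ j ∈ univ.erase i, EW (wc c) Z m g (α i - α j)) := by
  refine optimize (EW_nonneg Z m g 0 hc) ?_ ?_ fun t ht => bes_wc Z m g hm α ht hc
  · have : (1 : ℝ) ≤ Fintype.card κ := by exact_mod_cast Fintype.card_pos
    rw [sub_nonneg, div_le_one (by linarith)]
    exact this
  · exact sum_nonneg fun i _ => sum_nonneg fun j _ => EW_nonneg Z m g _ hc

end Pool.Agent.Zk93.PC
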