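import Pool.Agent.Zk93.PC.Gau

/-! # Gaussian means and the Harnack inequality -/

set_option autoImplicit false

open Finset MeasureTheory Set

namespace Pool.Agent.Zk93.PC

variable {ι κ : Type*}

lemma int_zero_odd {f : ℝ → ℝ} (h : ∀ x, f (-x) = -f x) : ∫ x, f x = 0 := by
  have h1 := integral_neg_eq_self f volume
  simp_rw [h] at h1
  rw [integral_neg] at h1
  linarith

lemma gcos_int {b : ℝ} (hb : 0 < b) (t : ℝ) :
    Integrable fun x : ℝ => Real.exp (-b * x ^ 2) * Real.cos (t * x) := by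
  refine (integrable_exp_neg_mul_sq hb).mul_bdd (c := 1) (by fun_prop)
    (Filter.Eventually.of_forall fun x => ?_)
  rw [Real.norm_eq_abs]
  exact Real.abs_cos_le_one _

lemma gsin_int {b : ℝ} (hb : 0 < b) (t : ℝ) :
    Integrable fun x : ℝ => Real.exp (-b * x ^ 2) * Real.sin (t * x) := by
  refine (integrable_exp_neg_mul_sq hb).mul_bdd (c := 1) (by fun_prop)
    (Filter.Eventually.of_forall fun x => ?_)
  rw [Real.norm_eq_abs]
  exact Real.abs_sin_le_one _

lemma gcos {b : ℝ} (hb : 0 < b) (t : ℝ) :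
    ∫ x : ℝ, Real.exp (-b * x ^ 2) * Real.cos (t * x) =
      Real.sqrt (Real.pi / b) * Real.exp (-t ^ 2 / (4 * b)) := by
  have h := fourierIntegral_gaussian (b := (b : ℂ)) (by simpa using hb) (t : ℂ)
  have e : ∀ x : ℝ, Complex.exp (Complex.I * t * x) * Complex.exp (-b * x ^ 2) =
      ((Real.exp (-b * x ^ 2) * Real.cos (t * x) : ℝ) : ℂ) +
      ((Real.exp (-b * x ^ 2) * Real.sin (t * x) : ℝ) : ℂ) * Complex.I := by
    intro x
    have e1 : Complex.I * t * x = ((t * x : ℝ) : ℂ) * Complex.I := by push_cast; ring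
    have e2 : (-b * x ^ 2 : ℂ) = ((-b * x ^ 2 : ℝ) : ℂ) := by push_cast; ring
    rw [e1, e2, Complex.exp_mul_I, ← Complex.ofReal_cos, ← Complex.ofReal_sin,
      ← Complex.ofReal_exp]
    push_cast
    ring
  simp_rw [e] at h
  have j1 : Integrable fun x : ℝ => ((Real.exp (-b * x ^ 2) * Real.cos (t * x) : ℝ) : ℂ) :=
    (gcos_int hb t).ofReal
  have j2 : Integrable fun x : ℝ =>
      ((Real.exp (-b * x ^ 2) * Real.sin (t * x) : ℝ) : ℂ) * Complex.I :=
    (gsin_int hb t).ofReal.mul_const _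
  rw [integral_add j1 j2, integral_mul_const, integral_complex_ofReal,
    integral_complex_ofReal] at h
  have h0 : ∫ x : ℝ, Real.exp (-b * x ^ 2) * Real.sin (t * x) = 0 := by
    apply int_zero_odd
    intro x
    rw [neg_sq, mul_neg, Real.sin_neg, mul_neg]
  rw [h0] at h
  have e3 : (Real.pi / b : ℂ) ^ (1 / 2 : ℂ) = ((Real.sqrt (Real.pi / b) : ℝ) : ℂ) := by
    rw [Real.sqrt_eq_rpow, Complex.ofReal_cpow (by have := Real.pi_pos; positivity)]
    push_cast
    rfl
  have e4 : Complex.exp (-(t : ℂ) ^ 2 / (4 * b)) = ((Real.exp (-t ^ 2 / (4 * b)) : ℝ) : ℂ) := by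
    push_cast; rfl
  rw [e3, e4, Complex.ofReal_zero, zero_mul, add_zero, ← Complex.ofReal_mul] at h
  exact Complex.ofReal_injective h

/-- the Gaussian mean of the form with weight `wc 0` -/
lemma EW_gmean (Z : Finset ι) (m g : ι → ℝ) (y L : ℝ) {ρ : ℝ} (hρ : 0 < ρ) :
    (Integrable fun β : ℝ => Real.exp (-(1 / ρ ^ 2) * β ^ 2) * EW (wc 0) Z m g (y + β * L)) ∧
    ∫ β : ℝ, Real.exp (-(1 / ρ ^ 2) * β ^ 2) * EW (wc 0) Z m g (y + β * L) =
      Real.sqrt Real.pi * ρ * EW (wc (ρ ^ 2 * L ^ 2 / 4)) Z m g y := by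
  have hb : 0 < 1 / ρ ^ 2 := by positivity
  have e : ∀ β : ℝ, Real.exp (-(1 / ρ ^ 2) * β ^ 2) * EW (wc 0) Z m g (y + β * L) =
      ∑ a ∈ Z, ∑ b ∈ Z, ((m a * m b * Real.cos (y * (g a - g b)) * wc 0 (g a - g b)) *
        (Real.exp (-(1 / ρ ^ 2) * β ^ 2) * Real.cos (L * (g a - g b) * β)) +
        (-(m a * m b * Real.sin (y * (g a - g b)) * wc 0 (g a - g b))) *
        (Real.exp (-(1 / ρ ^ 2) * β ^ 2) * Real.sin (L * (g a - g b) * β))) := by
    intro β
    unfold EW
    rw [mul_sum]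
    refine sum_congr rfl fun a _ => ?_
    rw [mul_sum]
    refine sum_congr rfl fun b _ => ?_
    rw [show (y + β * L) * (g a - g b) = y * (g a - g b) + L * (g a - g b) * β by ring,
      Real.cos_add]
    ring
  simp_rw [e]
  have hi : ∀ a ∈ Z, ∀ b ∈ Z, Integrable fun β : ℝ =>
      ((m a * m b * Real.cos (y * (g a - g b)) * wc 0 (g a - g b)) *
        (Real.exp (-(1 / ρ ^ 2) * β ^ 2) * Real.cos (L * (g a - g b) * β)) +
        (-(m a * m b * Real.sin (y * (g a - g b)) * wc 0 (g a - g b))) *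
        (Real.exp (-(1 / ρ ^ 2) * β ^ 2) * Real.sin (L * (g a - g b) * β))) :=
    fun a _ b _ => ((gcos_int hb _).const_mul _).add ((gsin_int hb _).const_mul _)
  refine ⟨integrable_finsetSum _ fun s hs => integrable_finsetSum _ fun s' hs' => hi s hs s' hs', ?_⟩
  rw [integral_finsetSum _ fun s hs => integrable_finsetSum _ fun s' hs' => hi s hs s' hs']
  unfold EW
  rw [mul_sum]
  refine sum_congr rfl fun a ha => ?_
  rw [integral_finsetSum _ fun s' hs' => hi a ha s' hs', mul_sum]
  refine sum_congr rfl fun b _ => ?_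
  rw [integral_add ((gcos_int hb _).const_mul _) ((gsin_int hb _).const_mul _),
    integral_const_mul, integral_const_mul, gcos hb]
  have h0 : ∫ β : ℝ, Real.exp (-(1 / ρ ^ 2) * β ^ 2) * Real.sin (L * (g a - g b) * β) = 0 := by
    apply int_zero_odd
    intro x
    rw [neg_sq, mul_neg, Real.sin_neg, mul_neg]
  rw [h0, mul_zero, add_zero]
  have e1 : Real.sqrt (Real.pi / (1 / ρ ^ 2)) = Real.sqrt Real.pi * ρ := by
    rw [div_div_eq_mul_div, div_one, Real.sqrt_mul Real.pi_pos.le, Real.sqrt_sq hρ.le]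
  have e2 : -(L * (g a - g b)) ^ 2 / (4 * (1 / ρ ^ 2)) =
      -(ρ ^ 2 * L ^ 2 / 4 * (g a - g b) ^ 2) := by
    field_simp
  rw [e1, e2]
  unfold wc
  rw [zero_mul, neg_zero, Real.exp_zero, mul_one]
  ring

/-- the form is at most its value at the origin -/
lemma EW_le_zero (Z : Finset ι) (m g : ι → ℝ) (hm : ∀ s ∈ Z, 0 ≤ m s) (α c : ℝ) :
    EW (wc c) Z m g α ≤ EW (wc c) Z m g 0 := by
  unfold EW
  refine sum_le_sum fun a ha => sum_le_sum fun b hb => ?_
  have h1 : 0 ≤ wc c (g a - g b) := by unfold wc; positivity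
  have h2 := Real.cos_le_one (α * (g a - g b))
  rw [zero_mul, Real.cos_zero]
  exact mul_le_mul_of_nonneg_left (mul_le_mul_of_nonneg_right h2 h1)
    (mul_nonneg (hm a ha) (hm b hb))

/-! ### Harnack -/

lemma eabs_int (y : ℝ) : Integrable fun v : ℝ => Real.exp (-(2 * |v - y|)) := by
  have h : Integrable fun v : ℝ => Real.exp (-(2 * |v|)) := by
    by_contra hcon
    have h1 := integral_comp_abs (f := fun x : ℝ => Real.exp (-(2 * x)))
    rw [integral_undef hcon] at h1
    have h2 : ∫ x in Ioi (0 : ℝ), Real.exp (-(2 * x)) = 1 / 2 := by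
      have h3 := integral_exp_mul_Ioi (a := -2) (by norm_num) 0
      rw [mul_zero, Real.exp_zero] at h3
      rw [show (1 : ℝ) / 2 = -1 / -2 by norm_num, ← h3]
      refine integral_congr_ae (Filter.Eventually.of_forall fun x => ?_)
      simp only
      congr 1
      ring
    rw [h2] at h1
    norm_num at h1
  exact h.comp_sub_right y

lemma wc0_int (u : ℝ) : wc 0 u = ∫ v : ℝ, Real.exp (-(2 * |v|)) * Real.cos (v * u) := by
  have h1 : ∫ v : ℝ, Real.exp (-(2 * |v|)) * Real.cos (v * u) =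
      2 * ∫ v in Ioi (0 : ℝ), Real.exp (-(2 * v)) * Real.cos (v * u) := by
    rw [← integral_comp_abs (f := fun v : ℝ => Real.exp (-(2 * v)) * Real.cos (v * u))]
    refine integral_congr_ae (Filter.Eventually.of_forall fun v => ?_)
    simp only
    congr 1
    rcases abs_choice v with h | h
    · rw [h]
    · rw [h, neg_mul, Real.cos_neg]
  rw [h1]
  have hre : ((-2 : ℂ) + u * Complex.I).re < 0 := by simp
  have h1 := integral_exp_mul_complex_Ioi hre 0
  have h2 := congrArg Complex.re h1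
  have hi := integrableOn_exp_mul_complex_Ioi hre 0
  have h3 : (∫ x : ℝ in Ioi 0, Complex.exp ((-2 + u * Complex.I) * x)).re =
      ∫ x : ℝ in Ioi 0, (Complex.exp ((-2 + u * Complex.I) * x)).re := by
    have := integral_re (𝕜 := ℂ) hi
    simpa using this.symm
  rw [h3] at h2
  have h4 : ∀ x : ℝ, (Complex.exp ((-2 + u * Complex.I) * x)).re =
      Real.exp (-(2 * x)) * Real.cos (x * u) := by
    intro x
    rw [Complex.exp_re]
    congr 2
    · simp
    · simp; ring
  simp_rw [h4] at h2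
  rw [h2]
  have h5 : (-2 + u * Complex.I : ℂ) ≠ 0 := by
    intro h
    have := congrArg Complex.re h
    simp at this
  have h6 : (-Complex.exp ((-2 + (u : ℂ) * Complex.I) * ((0 : ℝ) : ℂ)) / (-2 + u * Complex.I)).re =
      2 / (4 + u ^ 2) := by
    rw [Complex.ofReal_zero, mul_zero, Complex.exp_zero, Complex.div_re]
    simp [Complex.normSq_apply]
    field_simp
    ring
  rw [h6]
  unfold wc
  rw [zero_mul, neg_zero, Real.exp_zero]
  ring

lemma Nq_nonneg (Z : Finset ι) (m g : ι → ℝ) (α : ℝ) : 0 ≤ Nq Z m g α := by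
  rw [← norm_zz]; positivity

lemma EW_line (Z : Finset ι) (m g : ι → ℝ) (y : ℝ) :
    (Integrable fun v : ℝ => Real.exp (-(2 * |v - y|)) * Nq Z m g v) ∧
    EW (wc 0) Z m g y = ∫ v : ℝ, Real.exp (-(2 * |v - y|)) * Nq Z m g v := by
  have hc : ∀ u : ℝ, Integrable fun v : ℝ => Real.exp (-(2 * |v|)) * Real.cos (v * u) := by
    intro u
    have := eabs_int 0
    simp only [sub_zero] at this
    refine this.mul_bdd (c := 1) (by fun_prop) (Filter.Eventually.of_forall fun x => ?_)
    rw [Real.norm_eq_abs]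
    exact Real.abs_cos_le_one _
  have hs : ∀ u : ℝ, Integrable fun v : ℝ => Real.exp (-(2 * |v|)) * Real.sin (v * u) := by
    intro u
    have := eabs_int 0
    simp only [sub_zero] at this
    refine this.mul_bdd (c := 1) (by fun_prop) (Filter.Eventually.of_forall fun x => ?_)
    rw [Real.norm_eq_abs]
    exact Real.abs_sin_le_one _
  have e : ∀ v : ℝ, Real.exp (-(2 * |v|)) * Nq Z m g (y + v) =
      ∑ a ∈ Z, ∑ b ∈ Z, ((m a * m b * Real.cos (y * (g a - g b))) *
        (Real.exp (-(2 * |v|)) * Real.cos (v * (g a - g b))) +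
        (-(m a * m b * Real.sin (y * (g a - g b)))) *
        (Real.exp (-(2 * |v|)) * Real.sin (v * (g a - g b)))) := by
    intro v
    unfold Nq
    rw [mul_sum]
    refine sum_congr rfl fun a _ => ?_
    rw [mul_sum]
    refine sum_congr rfl fun b _ => ?_
    rw [add_mul, Real.cos_add]
    ring
  have hi : ∀ a ∈ Z, ∀ b ∈ Z, Integrable fun v : ℝ =>
      ((m a * m b * Real.cos (y * (g a - g b))) *
        (Real.exp (-(2 * |v|)) * Real.cos (v * (g a - g b))) +
        (-(m a * m b * Real.sin (y * (g a - g b)))) *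
        (Real.exp (-(2 * |v|)) * Real.sin (v * (g a - g b)))) :=
    fun a _ b _ => ((hc _).const_mul _).add ((hs _).const_mul _)
  have hI : Integrable fun v : ℝ => Real.exp (-(2 * |v|)) * Nq Z m g (y + v) := by
    simp_rw [e]
    exact integrable_finsetSum _ fun s hs => integrable_finsetSum _ fun s' hs' => hi s hs s' hs'
  have hI2 : Integrable fun v : ℝ => Real.exp (-(2 * |v - y|)) * Nq Z m g v := by
    have := hI.comp_sub_right y
    refine this.congr (Filter.Eventually.of_forall fun v => ?_)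
    simp only
    rw [add_sub_cancel]
  refine ⟨hI2, ?_⟩
  have h1 : ∫ v : ℝ, Real.exp (-(2 * |v - y|)) * Nq Z m g v =
      ∫ v : ℝ, Real.exp (-(2 * |v|)) * Nq Z m g (y + v) := by
    rw [← integral_sub_right_eq_self (fun v : ℝ => Real.exp (-(2 * |v|)) * Nq Z m g (y + v)) y]
    refine integral_congr_ae (Filter.Eventually.of_forall fun v => ?_)
    simp only
    rw [add_sub_cancel]
  rw [h1]
  simp_rw [e]
  rw [integral_finsetSum _ fun s hs => integrable_finsetSum _ fun s' hs' => hi s hs s' hs']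
  unfold EW
  refine sum_congr rfl fun a ha => ?_
  rw [integral_finsetSum _ fun s' hs' => hi a ha s' hs']
  refine sum_congr rfl fun b _ => ?_
  rw [integral_add ((hc _).const_mul _) ((hs _).const_mul _), integral_const_mul,
    integral_const_mul, ← wc0_int]
  have h0 : ∫ v : ℝ, Real.exp (-(2 * |v|)) * Real.sin (v * (g a - g b)) = 0 := by
    apply int_zero_odd
    intro x
    rw [abs_neg, neg_mul, Real.sin_neg, mul_neg]
  rw [h0]
  ring

/-- the Harnack inequality -/
theorem harnack (Z : Finset ι) (m g : ι → ℝ) (y z : ℝ) :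
    Real.exp (-(2 * |z|)) * EW (wc 0) Z m g y ≤ EW (wc 0) Z m g (y + z) := by
  obtain ⟨i1, h1⟩ := EW_line Z m g y
  obtain ⟨i2, h2⟩ := EW_line Z m g (y + z)
  rw [h1, h2, ← integral_const_mul]
  refine integral_mono (i1.const_mul _) i2 fun v => ?_
  simp only
  rw [← mul_assoc, ← Real.exp_add]
  refine mul_le_mul_of_nonneg_right (Real.exp_le_exp.2 ?_) (Nq_nonneg Z m g v)
  have : |v - (y + z)| ≤ |v - y| + |z| := by
    rw [show v - (y + z) = (v - y) - z by ring]
    exact abs_sub _ _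
  linarith

end Pool.Agent.Zk93.PC
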