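import Pool.Agent.Zk93.PC.Hk
import Pool.Agent.Y749.AH.Mass

/-! # Montgomery's function: the Bessel inequality, masses -/

set_option autoImplicit false

open Finset MeasureTheory Set Filter Topology

namespace Pool.Agent.Zk93.PC

open Pool.Agent.Y749.Rig

/-- the form of the zeros -/
noncomputable def EZ (T c y : ℝ) : ℝ := EW (wc c) (ZZ T) mm (fun s : ℂ => s.im) y

lemma Fr_EZ {T : ℝ} (hT : 10 ≤ T) (α : ℝ) : Fr T α = EZ T 0 (α * Real.log T) / nT T := by
  have hL := one_lt_log (show 3 ≤ T by linarith)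
  have hpi := Real.pi_pos
  unfold Fr
  rw [Mp_integral hT (fun x => Real.cos (2 * Real.pi * α * x) * ww (2 * Real.pi * x / Real.log T))]
  congr 1
  unfold RR EZ EW
  refine sum_congr rfl fun s _ => sum_congr rfl fun s' _ => ?_
  have e1 : 2 * Real.pi * α * ((s.im - s'.im) * Real.log T / (2 * Real.pi)) =
      α * Real.log T * (s.im - s'.im) := by
    field_simp
  have e2 : 2 * Real.pi * ((s.im - s'.im) * Real.log T / (2 * Real.pi)) / Real.log T =
      s.im - s'.im := by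
    field_simp
  beta_reduce
  rw [e1, e2]
  congr 2
  unfold ww wc
  rw [zero_mul, neg_zero, Real.exp_zero, mul_one]

/-- scaling of the inequality -/
lemma scale {A B c D r : ℝ} (hr : 0 ≤ r) (h : A ≤ B + Real.sqrt (c * B * D)) :
    A * r ≤ B * r + Real.sqrt (c * (B * r) * (D * r)) := by
  have e : c * (B * r) * (D * r) = r ^ 2 * (c * B * D) := by ring
  rw [e, Real.sqrt_mul (by positivity), Real.sqrt_sq hr]
  have := mul_le_mul_of_nonneg_right h hr
  linarith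

theorem bes_Fr {κ : Type*} [Fintype κ] [DecidableEq κ] [Nonempty κ] {T : ℝ} (hT : 10 ≤ T)
    (α : κ → ℝ) :
    ∑ i, Fr T (α i) ≤ Fr T 0 + Real.sqrt ((1 - 1 / Fintype.card κ) * Fr T 0 *
      ∑ i, ∑ j ∈ univ.erase i, Fr T (α i - α j)) := by
  have hn := nT_pos hT
  have h := bes_sqrt (ZZ T) mm (fun s : ℂ => s.im) (fun s _ => mm_nonneg s)
    (fun i => α i * Real.log T) (c := 0) le_rfl
  have h2 := scale (r := (nT T)⁻¹) (by positivity) h
  have e0 : Fr T 0 = EW (wc 0) (ZZ T) mm (fun s : ℂ => s.im) 0 * (nT T)⁻¹ := by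
    rw [Fr_EZ hT, zero_mul, div_eq_mul_inv]; rfl
  have e1 : ∀ i, Fr T (α i) = EW (wc 0) (ZZ T) mm (fun s : ℂ => s.im) (α i * Real.log T) *
      (nT T)⁻¹ := by
    intro i
    rw [Fr_EZ hT, div_eq_mul_inv]; rfl
  have e2 : ∀ i j, Fr T (α i - α j) = EW (wc 0) (ZZ T) mm (fun s : ℂ => s.im)
      (α i * Real.log T - α j * Real.log T) * (nT T)⁻¹ := by
    intro i j
    rw [Fr_EZ hT, div_eq_mul_inv, sub_mul]; rfl
  simp_rw [e0, e1, e2, ← sum_mul]
  exact h2

/-- the Gaussian mean of the form factor -/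
noncomputable def Gs (T ρ θ : ℝ) : ℝ := ∫ β : ℝ, Real.exp (-(1 / ρ ^ 2) * β ^ 2) * Fr T (θ + β)

lemma Gs_int {T : ℝ} (hT : 10 ≤ T) {ρ : ℝ} (hρ : 0 < ρ) (θ : ℝ) :
    Integrable fun β : ℝ => Real.exp (-(1 / ρ ^ 2) * β ^ 2) * Fr T (θ + β) := by
  have h := (EW_gmean (ZZ T) mm (fun s : ℂ => s.im) (θ * Real.log T) (Real.log T) hρ).1
  refine (h.mul_const (nT T)⁻¹).congr (Eventually.of_forall fun β => ?_)
  simp only
  rw [Fr_EZ hT, div_eq_mul_inv, add_mul]
  unfold EZ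
  ring

lemma Gs_EZ {T : ℝ} (hT : 10 ≤ T) {ρ : ℝ} (hρ : 0 < ρ) (θ : ℝ) :
    Gs T ρ θ = EZ T (ρ ^ 2 * Real.log T ^ 2 / 4) (θ * Real.log T) *
      (Real.sqrt Real.pi * ρ * (nT T)⁻¹) := by
  have h := (EW_gmean (ZZ T) mm (fun s : ℂ => s.im) (θ * Real.log T) (Real.log T) hρ).2
  unfold Gs
  have e : ∀ β : ℝ, Real.exp (-(1 / ρ ^ 2) * β ^ 2) * Fr T (θ + β) =
      Real.exp (-(1 / ρ ^ 2) * β ^ 2) * EW (wc 0) (ZZ T) mm (fun s : ℂ => s.im)
        (θ * Real.log T + β * Real.log T) * (nT T)⁻¹ := by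
    intro β
    rw [Fr_EZ hT, div_eq_mul_inv, add_mul]
    unfold EZ
    ring
  simp_rw [e]
  rw [integral_mul_const, h]
  unfold EZ
  ring

theorem bes_Gs {κ : Type*} [Fintype κ] [DecidableEq κ] [Nonempty κ] {T : ℝ} (hT : 10 ≤ T)
    {ρ : ℝ} (hρ : 0 < ρ) (α : κ → ℝ) :
    ∑ i, Gs T ρ (α i) ≤ Gs T ρ 0 + Real.sqrt ((1 - 1 / Fintype.card κ) * Gs T ρ 0 *
      ∑ i, ∑ j ∈ univ.erase i, Gs T ρ (α i - α j)) := by
  have hn := nT_pos hT
  set c : ℝ := ρ ^ 2 * Real.log T ^ 2 / 4 with hc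
  have hc0 : 0 ≤ c := by rw [hc]; positivity
  have h := bes_sqrt (ZZ T) mm (fun s : ℂ => s.im) (fun s _ => mm_nonneg s)
    (fun i => α i * Real.log T) hc0
  have h2 := scale (r := Real.sqrt Real.pi * ρ * (nT T)⁻¹) (by positivity) h
  have e0 : Gs T ρ 0 = EW (wc c) (ZZ T) mm (fun s : ℂ => s.im) 0 *
      (Real.sqrt Real.pi * ρ * (nT T)⁻¹) := by
    rw [Gs_EZ hT hρ, zero_mul]; rfl
  have e1 : ∀ i, Gs T ρ (α i) = EW (wc c) (ZZ T) mm (fun s : ℂ => s.im) (α i * Real.log T) *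
      (Real.sqrt Real.pi * ρ * (nT T)⁻¹) := by
    intro i
    rw [Gs_EZ hT hρ]; rfl
  have e2 : ∀ i j, Gs T ρ (α i - α j) = EW (wc c) (ZZ T) mm (fun s : ℂ => s.im)
      (α i * Real.log T - α j * Real.log T) * (Real.sqrt Real.pi * ρ * (nT T)⁻¹) := by
    intro i j
    rw [Gs_EZ hT hρ, sub_mul]; rfl
  simp_rw [e0, e1, e2, ← sum_mul]
  exact h2

lemma Gs_le_zero {T : ℝ} (hT : 10 ≤ T) {ρ : ℝ} (hρ : 0 < ρ) (θ : ℝ) : Gs T ρ θ ≤ Gs T ρ 0 := by
  have hn := nT_pos hT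
  rw [Gs_EZ hT hρ, Gs_EZ hT hρ, zero_mul]
  refine mul_le_mul_of_nonneg_right ?_ (by positivity)
  exact EW_le_zero _ _ _ (fun s _ => mm_nonneg s) _ _

/-- Harnack for the form factor -/
lemma Fr_harnack {T : ℝ} (hT : 10 ≤ T) (α δ : ℝ) :
    Real.exp (-(2 * (|δ| * Real.log T))) * Fr T α ≤ Fr T (α + δ) := by
  have hn := nT_pos hT
  have hL := one_lt_log (show 3 ≤ T by linarith)
  have h := harnack (ZZ T) mm (fun s : ℂ => s.im) (α * Real.log T) (δ * Real.log T)
  rw [Fr_EZ hT, Fr_EZ hT, add_mul]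
  unfold EZ
  rw [abs_mul, abs_of_pos (show 0 < Real.log T by linarith)] at h
  rw [← mul_div_assoc]
  gcongr

/-- the mass -/
noncomputable def Ms (T δ θ : ℝ) : ℝ := ∫ α in (θ - δ)..(θ + δ), Fr T α

lemma Ms_nonneg {T : ℝ} (hT : 10 ≤ T) {δ : ℝ} (hδ : 0 ≤ δ) (θ : ℝ) : 0 ≤ Ms T δ θ :=
  intervalIntegral.integral_nonneg (by linarith) fun α _ => Fr_nonneg hT α

lemma Ms_mono {T : ℝ} (hT : 10 ≤ T) {δ δ' θ θ' : ℝ} (hδ : 0 ≤ δ) (h1 : θ' - δ' ≤ θ - δ)
    (h2 : θ + δ ≤ θ' + δ') : Ms T δ θ ≤ Ms T δ' θ' := by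
  have hc := Fr_cont T
  exact intervalIntegral.integral_mono_interval h1 (by linarith) h2
    (Eventually.of_forall fun α => Fr_nonneg hT α) (hc.intervalIntegrable _ _)

lemma Ms_shift (T δ θ : ℝ) : Ms T δ θ = ∫ β in (-δ)..δ, Fr T (θ + β) := by
  unfold Ms
  rw [intervalIntegral.integral_comp_add_left (fun α => Fr T α) θ, ← sub_eq_add_neg]

lemma exp_abs_int {δ L : ℝ} (hδ : 0 ≤ δ) (hL : 0 < L) :
    ∫ β in (-δ)..δ, Real.exp (-(2 * (|β| * L))) = (1 - Real.exp (-(2 * (δ * L)))) / L := by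
  have hc : Continuous fun β : ℝ => Real.exp (-(2 * (|β| * L))) := by fun_prop
  have h1 : ∫ β in (0 : ℝ)..δ, Real.exp (-(2 * (|β| * L))) =
      (1 - Real.exp (-(2 * (δ * L)))) / (2 * L) := by
    have e1 : ∫ β in (0 : ℝ)..δ, Real.exp (-(2 * (|β| * L))) =
        ∫ β in (0 : ℝ)..δ, Real.exp (-(2 * L) * β) := by
      apply intervalIntegral.integral_congr
      intro a ha
      rw [uIcc_of_le hδ] at ha
      beta_reduce
      rw [abs_of_nonneg ha.1]
      congr 1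
      ring
    rw [e1, intervalIntegral.integral_comp_mul_left (fun x => Real.exp x)
      (by have : 0 < 2 * L := by positivity
          linarith : -(2 * L) ≠ 0), integral_exp]
    simp only [mul_zero, Real.exp_zero, smul_eq_mul]
    rw [show -(2 * L) * δ = -(2 * (δ * L)) by ring]
    field_simp
    ring
  have h2 : ∫ β in (-δ)..0, Real.exp (-(2 * (|β| * L))) =
      ∫ β in (0 : ℝ)..δ, Real.exp (-(2 * (|β| * L))) := by
    have := intervalIntegral.integral_comp_neg (a := (0 : ℝ)) (b := δ)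
      (fun β : ℝ => Real.exp (-(2 * (|β| * L))))
    rw [neg_zero] at this
    rw [← this]
    refine intervalIntegral.integral_congr fun α _ => ?_
    beta_reduce
    rw [abs_neg]
  rw [← intervalIntegral.integral_add_adjacent_intervals (b := 0) (hc.intervalIntegrable _ _)
    (hc.intervalIntegrable _ _), h2, h1]
  field_simp
  ring

/-- a value of the form factor is bounded by the mass near the point -/
lemma Fr_le_Ms {T : ℝ} (hT : 10 ≤ T) {δ : ℝ} (hδ : 0 ≤ δ) (θ : ℝ) :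
    (1 - Real.exp (-(2 * (δ * Real.log T)))) / Real.log T * Fr T θ ≤ Ms T δ θ := by
  have hL := one_lt_log (show 3 ≤ T by linarith)
  have hc := Fr_cont T
  rw [Ms_shift, ← exp_abs_int hδ (show 0 < Real.log T by linarith),
    ← intervalIntegral.integral_mul_const]
  have hc1 : Continuous fun β : ℝ => Real.exp (-(2 * (|β| * Real.log T))) * Fr T θ := by fun_prop
  have hc2 : Continuous fun β : ℝ => Fr T (θ + β) := by fun_prop
  refine intervalIntegral.integral_mono_on (by linarith) (hc1.intervalIntegrable _ _)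
    (hc2.intervalIntegrable _ _) fun β _ => ?_
  exact Fr_harnack hT θ β

/-- the Gaussian mean is bounded below by the mass -/
lemma Gs_low {T : ℝ} (hT : 10 ≤ T) {ρ : ℝ} (hρ : 0 < ρ) {δ : ℝ} (hδ : 0 ≤ δ) (θ : ℝ) :
    Real.exp (-(1 / ρ ^ 2) * δ ^ 2) * Ms T δ θ ≤ Gs T ρ θ := by
  have hc := Fr_cont T
  rw [Ms_shift, ← intervalIntegral.integral_const_mul,
    intervalIntegral.integral_of_le (by linarith)]
  have hi := Gs_int hT hρ θ
  unfold Gs
  calc ∫ β in Ioc (-δ) δ, Real.exp (-(1 / ρ ^ 2) * δ ^ 2) * Fr T (θ + β) ≤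
      ∫ β in Ioc (-δ) δ, Real.exp (-(1 / ρ ^ 2) * β ^ 2) * Fr T (θ + β) := by
        refine setIntegral_mono_on ?_ hi.integrableOn measurableSet_Ioc fun β hβ => ?_
        · have : Continuous fun β => Real.exp (-(1 / ρ ^ 2) * δ ^ 2) * Fr T (θ + β) := by fun_prop
          exact this.continuousOn.integrableOn_Icc.mono_set Ioc_subset_Icc_self
        · refine mul_le_mul_of_nonneg_right (Real.exp_le_exp.2 ?_) (Fr_nonneg hT _)
          have h1 : β ^ 2 ≤ δ ^ 2 := by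
            rw [← sq_abs β]
            exact pow_le_pow_left₀ (abs_nonneg _) (abs_le.2 ⟨hβ.1.le, hβ.2⟩) 2
          have h2 : 0 ≤ 1 / ρ ^ 2 := by positivity
          nlinarith
    _ ≤ _ := setIntegral_le_integral hi (Eventually.of_forall fun β =>
        mul_nonneg (Real.exp_pos _).le (Fr_nonneg hT _))

/-- the Gaussian mean is bounded above by the mass and a tail -/
lemma Gs_up {T : ℝ} (hT : 10 ≤ T) {ρ : ℝ} (hρ : 0 < ρ) (hρ1 : ρ ≤ 1) {δ : ℝ} (hδ : 0 ≤ δ) (θ : ℝ) :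
    Gs T ρ θ ≤ Ms T δ θ + Real.exp (-((1 / ρ ^ 2 - 1) * δ ^ 2)) * Gs T 1 θ := by
  have hc := Fr_cont T
  have hi := Gs_int hT hρ θ
  have hi1 := Gs_int hT one_pos θ
  have hr : 0 ≤ 1 / ρ ^ 2 - 1 := by
    rw [sub_nonneg, one_le_div (by positivity)]
    exact pow_le_one₀ hρ.le hρ1
  have hcF : Continuous fun β => Fr T (θ + β) := by fun_prop
  have hiF : IntegrableOn (fun β => Fr T (θ + β)) (Ioc (-δ) δ) :=
    hcF.continuousOn.integrableOn_Icc.mono_set Ioc_subset_Icc_self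
  rw [Ms_shift, intervalIntegral.integral_of_le (by linarith),
    ← integral_indicator measurableSet_Ioc]
  unfold Gs
  rw [← integral_const_mul, ← integral_add (hiF.integrable_indicator measurableSet_Ioc)
    (hi1.const_mul _)]
  refine integral_mono hi ((hiF.integrable_indicator measurableSet_Ioc).add (hi1.const_mul _))
    fun β => ?_
  simp only
  have hF := Fr_nonneg hT (θ + β)
  by_cases hβ : β ∈ Ioc (-δ) δ
  · rw [indicator_of_mem hβ]
    have h1 : Real.exp (-(1 / ρ ^ 2) * β ^ 2) ≤ 1 := by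
      rw [Real.exp_le_one_iff]
      have h2 : 0 ≤ 1 / ρ ^ 2 := by positivity
      nlinarith [sq_nonneg β]
    have h3 : 0 ≤ Real.exp (-((1 / ρ ^ 2 - 1) * δ ^ 2)) *
        (Real.exp (-(1 / 1 ^ 2) * β ^ 2) * Fr T (θ + β)) := by positivity
    nlinarith
  · rw [indicator_of_notMem hβ, zero_add, ← mul_assoc, ← Real.exp_add]
    refine mul_le_mul_of_nonneg_right (Real.exp_le_exp.2 ?_) hF
    have h1 : δ ^ 2 ≤ β ^ 2 := by
      rw [← sq_abs β]
      refine pow_le_pow_left₀ hδ ?_ 2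
      by_contra hcon
      push Not at hcon
      rw [abs_lt] at hcon
      exact hβ ⟨hcon.1, hcon.2.le⟩
    have h2 : (1 / ρ ^ 2 - 1) * δ ^ 2 ≤ (1 / ρ ^ 2 - 1) * β ^ 2 := by gcongr
    nlinarith

/-- the Gaussian means are bounded -/
lemma Gs_bdd : ∃ C : ℝ, 1 ≤ C ∧ ∀ᶠ T in atTop, ∀ ρ θ : ℝ, 0 < ρ → ρ ≤ 1 → Gs T ρ θ ≤ C := by
  obtain ⟨C, hC, hB⟩ := Mp_bdd
  have hC0 : 0 ≤ C := by linarith
  refine ⟨max 1 (Real.sqrt Real.pi * (2 * C * DD 0)), le_max_left _ _, ?_⟩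
  filter_upwards [hB, eventually_ge_atTop 10] with T hT hT10 ρ θ hρ hρ1
  have hn := nT_pos hT10
  have hL := one_lt_log (show 3 ≤ T by linarith)
  refine le_trans ?_ (le_max_right _ _)
  -- reduction to `ρ = 1`, `θ = 0`
  have h1 : Gs T ρ θ ≤ Gs T 1 0 := by
    refine le_trans ?_ (Gs_le_zero hT10 one_pos θ)
    unfold Gs
    refine integral_mono (Gs_int hT10 hρ θ) (Gs_int hT10 one_pos θ) fun β => ?_
    refine mul_le_mul_of_nonneg_right (Real.exp_le_exp.2 ?_) (Fr_nonneg hT10 _)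
    have h2 : 1 / 1 ^ 2 ≤ 1 / ρ ^ 2 := by
      apply one_div_le_one_div_of_le (by positivity)
      exact pow_le_pow_left₀ hρ.le hρ1 2
    nlinarith [sq_nonneg β]
  refine h1.trans ?_
  have hfin := Mp_fin T
  have i3 : Integrable (fun x : ℝ => 1 / (1 + x ^ 2)) (Mp T) := by
    refine Bdd.integrable hC0 hT ?_ ⟨1, fun x => ?_⟩
    · exact continuous_const.div (by fun_prop) fun x => by positivity
    · rw [abs_of_pos (by positivity)]
  have t2 : ∫ x, 1 / (1 + x ^ 2) ∂(Mp T) ≤ 2 * C * DD 0 := by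
    have h1 := lint_le hC0 hT 0
    have e0 : {x : ℝ | ((0 : ℕ) : ℝ) ≤ |x|} = univ := by
      ext x; simp
    rw [e0, Measure.restrict_univ] at h1
    rw [integral_eq_lintegral_of_nonneg_ae (Eventually.of_forall fun x => by positivity)
      i3.aestronglyMeasurable]
    have h2 : 0 ≤ 2 * C * DD 0 := by
      have := DD_nonneg 0
      positivity
    exact ENNReal.toReal_le_of_le_ofReal h2 h1
  have e1 : Gs T 1 0 = ∫ x, Real.sqrt Real.pi * (Real.exp (-(Real.pi ^ 2 * x ^ 2)) *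
      ww (2 * Real.pi * x / Real.log T)) ∂(Mp T) := by
    rw [Mp_integral hT10 (fun x => Real.sqrt Real.pi * (Real.exp (-(Real.pi ^ 2 * x ^ 2)) *
      ww (2 * Real.pi * x / Real.log T))), Gs_EZ hT10 one_pos, zero_mul, mul_one, ← mul_assoc]
    conv_rhs => rw [div_eq_mul_inv]
    congr 1
    unfold EZ EW RR
    rw [sum_mul]
    refine sum_congr rfl fun s _ => ?_
    rw [sum_mul]
    refine sum_congr rfl fun s' _ => ?_
    beta_reduce
    rw [zero_mul, Real.cos_zero, one_mul]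
    have hpi := Real.pi_pos
    have e2 : 2 * Real.pi * ((s.im - s'.im) * Real.log T / (2 * Real.pi)) / Real.log T =
        s.im - s'.im := by
      field_simp
    have e3 : Real.pi ^ 2 * ((s.im - s'.im) * Real.log T / (2 * Real.pi)) ^ 2 =
        1 ^ 2 * Real.log T ^ 2 / 4 * (s.im - s'.im) ^ 2 := by
      field_simp
      ring
    rw [e2, e3]
    unfold wc ww
    ring
  rw [e1]
  calc ∫ x, Real.sqrt Real.pi * (Real.exp (-(Real.pi ^ 2 * x ^ 2)) *
      ww (2 * Real.pi * x / Real.log T)) ∂(Mp T) ≤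
      ∫ x, Real.sqrt Real.pi * (1 / (1 + x ^ 2)) ∂(Mp T) := by
        have hb : ∀ x : ℝ, Real.exp (-(Real.pi ^ 2 * x ^ 2)) *
            ww (2 * Real.pi * x / Real.log T) ≤ 1 / (1 + x ^ 2) := by
          intro x
          have h3 : Real.exp (-(Real.pi ^ 2 * x ^ 2)) ≤ 1 / (1 + x ^ 2) := by
            rw [Real.exp_neg, ← one_div]
            apply one_div_le_one_div_of_le (by positivity)
            have h4 := Real.add_one_le_exp (Real.pi ^ 2 * x ^ 2)
            have h5 : 1 ≤ Real.pi ^ 2 := by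
              have := Real.pi_gt_three
              nlinarith
            nlinarith [sq_nonneg x]
          calc _ ≤ 1 / (1 + x ^ 2) * 1 := mul_le_mul h3 (ww_le _) (ww_pos _).le (by positivity)
            _ = _ := mul_one _
        refine integral_mono ?_ (i3.const_mul _) fun x => ?_
        · refine (Integrable.const_mul ?_ _)
          have hwc := ww_cont
          refine Integrable.mono' i3 (by fun_prop) (Eventually.of_forall fun x => ?_)
          rw [Real.norm_eq_abs, abs_of_nonneg (mul_nonneg (Real.exp_pos _).le (ww_pos _).le)]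
          exact hb x
        · exact mul_le_mul_of_nonneg_left (hb x) (Real.sqrt_nonneg _)
    _ = Real.sqrt Real.pi * ∫ x, 1 / (1 + x ^ 2) ∂(Mp T) := integral_const_mul _ _
    _ ≤ _ := by gcongr

end Pool.Agent.Zk93.PC
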