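import Pool.Agent.Zk93.PC.Mas

/-! # Montgomery's function: large values and masses under the Riemann hypothesis -/

set_option autoImplicit false

open Finset MeasureTheory Set Filter Topology

namespace Pool.Agent.Zk93.PC

open Pool.Agent.Y749.Rig
open Pool.Agent.Y749.AH (modu_pair tent_low)

lemma int_modu {h : ℝ} (hh : 0 < h) (θ : ℝ) : ∫ α, modu θ (tr h) α = 1 := by
  unfold modu
  have i1 : Integrable fun α => tr h (α - θ) := (tr_int hh).comp_sub_right θ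
  have i2 : Integrable fun α => tr h (α + θ) := (tr_int hh).comp_add_right θ
  have e : ∀ α : ℝ, (tr h (α - θ) + tr h (α + θ)) / 2 = (1 / 2) * (tr h (α - θ) + tr h (α + θ)) :=
    fun α => by ring
  simp_rw [e]
  rw [integral_const_mul, integral_add i1 i2, integral_sub_right_eq_self (tr h),
    integral_add_right_eq_self (tr h), int_tr hh]
  norm_num

lemma cc_modu {h θ : ℝ} (hh : 0 < h) (h1 : h ≤ |θ|) (h2 : h + |θ| < 1) :
    cc (modu θ (tr h)) ≤ 1 := by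
  have hadm := adm_modu (adm_tr hh) θ
  unfold cc
  have e0 : modu θ (tr h) 0 = 0 := by
    unfold modu
    rw [zero_sub, zero_add, tr_supp hh _ h1, tr_supp hh _ (by rw [abs_neg]; exact h1)]
    norm_num
  rw [e0, zero_add, ← int_modu hh θ]
  have hc := hadm.cont
  refine integral_mono ?_ hadm.int fun α => ?_
  · refine Continuous.integrable_of_hasCompactSupport (by fun_prop) hadm.hcs.mul_left
  · simp only
    have hnn : 0 ≤ modu θ (tr h) α := by
      unfold modu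
      have := tr_nonneg hh (α - θ)
      have := tr_nonneg hh (α + θ)
      positivity
    rcases le_or_gt (h + |θ|) |α| with h3 | h3
    · rw [hadm.supp α h3, mul_zero]
    · have : |α| ≤ 1 := by linarith
      nlinarith

lemma mass_point (RH : RiemannHypothesis) {δ θ : ℝ} (hδ : 0 < δ) (h1 : 4 * δ ≤ |θ|)
    (h2 : 4 * δ + |θ| < 1) : ∀ᶠ T in atTop, Ms T (2 * δ) θ ≤ 12 * δ := by
  have hh : 0 < 4 * δ := by positivity
  have hadm := adm_modu (adm_tr hh) θ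
  have hκ : 0 < 4 * δ + |θ| := by positivity
  have hlim := Fr_lim hadm.int (fl_qd hadm) le_rfl (test_limRH RH hadm hκ h2)
  have hcc := cc_modu hh h1 h2
  have hev := hlim.eventually (gt_mem_nhds (show cc (modu θ (tr (4 * δ))) < 3 / 2 by linarith))
  filter_upwards [hev, eventually_ge_atTop 10] with T hT hT10
  rw [modu_pair (adm_tr hh)] at hT
  have h3 := tent_low (θ := θ) (T := T) hh (show 0 < 2 * δ by positivity) (by linarith) hT10
  have e : (1 - 2 * δ / (4 * δ)) / (4 * δ) = 1 / (8 * δ) := by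
    field_simp
    norm_num
  rw [e] at h3
  have h4 : 1 / (8 * δ) * Ms T (2 * δ) θ ≤ 3 / 2 := h3.trans hT.le
  rw [one_div, inv_mul_le_iff₀ (by positivity)] at h4
  linarith

lemma mass_unif (RH : RiemannHypothesis) {δ ε : ℝ} (hδ : 0 < δ) (h6 : 6 * δ ≤ ε) :
    ∀ᶠ T in atTop, ∀ θ : ℝ, ε ≤ |θ| → |θ| ≤ 1 - ε → Ms T δ θ ≤ 12 * δ := by
  obtain ⟨N, hN⟩ : ∃ N : ℤ, 1 / δ + 1 ≤ N := ⟨⌈1 / δ + 1⌉, Int.le_ceil _⟩
  have hall : ∀ᶠ T in atTop, ∀ j ∈ Finset.Icc (-N) N, (4 * δ ≤ |(j : ℝ) * δ| →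
      4 * δ + |(j : ℝ) * δ| < 1 → Ms T (2 * δ) (j * δ) ≤ 12 * δ) := by
    rw [Filter.eventually_all_finset]
    intro j _
    by_cases h1 : 4 * δ ≤ |(j : ℝ) * δ| ∧ 4 * δ + |(j : ℝ) * δ| < 1
    · filter_upwards [mass_point RH hδ h1.1 h1.2] with T hT _ _
      exact hT
    · filter_upwards with T h2 h3
      exact absurd ⟨h2, h3⟩ h1
  filter_upwards [hall, eventually_ge_atTop 10] with T hT hT10 θ hθ1 hθ2
  set j : ℤ := ⌊θ / δ⌋ with hj
  have hj1 : (j : ℝ) * δ ≤ θ := by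
    have := Int.floor_le (θ / δ)
    rwa [le_div_iff₀ hδ] at this
  have hj2 : θ < (j : ℝ) * δ + δ := by
    have := Int.lt_floor_add_one (θ / δ)
    rw [div_lt_iff₀ hδ] at this
    linarith
  have hd : |θ - (j : ℝ) * δ| ≤ δ := by
    rw [abs_of_nonneg (by linarith)]
    linarith
  have ha : |θ| - δ ≤ |(j : ℝ) * δ| := by
    have := abs_sub_abs_le_abs_sub θ ((j : ℝ) * δ)
    linarith
  have hb : |(j : ℝ) * δ| ≤ |θ| + δ := by
    have := abs_sub_abs_le_abs_sub ((j : ℝ) * δ) θ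
    rw [abs_sub_comm] at this
    linarith
  have hjN : j ∈ Finset.Icc (-N) N := by
    have h1 : |(j : ℝ)| * δ ≤ 1 + δ := by
      rw [← abs_of_pos hδ, ← abs_mul, abs_of_pos hδ]
      linarith
    have h2 : |(j : ℝ)| ≤ 1 / δ + 1 := by
      have : (1 / δ + 1) * δ = 1 + δ := by field_simp
      rw [← this] at h1
      exact le_of_mul_le_mul_right h1 hδ
    have h3 := abs_le.1 (h2.trans hN)
    rw [Finset.mem_Icc]
    exact ⟨by exact_mod_cast h3.1, by exact_mod_cast h3.2⟩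
  refine (Ms_mono hT10 hδ.le ?_ ?_).trans (hT j hjN (by linarith) (by linarith))
  · linarith
  · linarith

lemma tail_small {δ C η : ℝ} (hδ : 0 < δ) (hC : 0 < C) (hη : 0 < η) : ∃ ρ0 : ℝ, 0 < ρ0 ∧ ρ0 ≤ 1 ∧
    ∀ ρ : ℝ, 0 < ρ → ρ ≤ ρ0 → Real.exp (-((1 / ρ ^ 2 - 1) * δ ^ 2)) * C ≤ η := by
  set A : ℝ := 1 + C / (η * δ ^ 2) with hA
  have hA1 : 1 ≤ A := by
    have : 0 ≤ C / (η * δ ^ 2) := by positivity
    linarith
  refine ⟨1 / A, by positivity, ?_, fun ρ hρ hρ2 => ?_⟩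
  · rw [div_le_one (by linarith)]; exact hA1
  have h1 : A ≤ 1 / ρ := by
    rw [le_div_iff₀ hρ]
    rw [le_div_iff₀ (by linarith)] at hρ2
    linarith
  have h2 : A ≤ 1 / ρ ^ 2 := by
    have h3 : (1 / ρ) ^ 2 = 1 / ρ ^ 2 := by rw [div_pow, one_pow]
    rw [← h3]
    nlinarith
  have h3 : C / η ≤ (1 / ρ ^ 2 - 1) * δ ^ 2 := by
    have h4 : C / η = (A - 1) * δ ^ 2 := by
      rw [hA]
      field_simp
      ring
    rw [h4]
    gcongr
  have h4 : Real.exp (-((1 / ρ ^ 2 - 1) * δ ^ 2)) ≤ 1 / (C / η) := by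
    rw [Real.exp_neg, ← one_div]
    apply one_div_le_one_div_of_le (by positivity)
    have := Real.add_one_le_exp ((1 / ρ ^ 2 - 1) * δ ^ 2)
    linarith
  calc _ ≤ 1 / (C / η) * C := by gcongr
    _ = η := by field_simp

lemma Gs_zero (RH : RiemannHypothesis) {η : ℝ} (hη : 0 < η) : ∃ ρ0 : ℝ, 0 < ρ0 ∧ ρ0 ≤ 1 ∧
    ∀ ρ : ℝ, 0 < ρ → ρ ≤ ρ0 → ∀ᶠ T in atTop, Gs T ρ 0 ≤ 1 + η := by
  obtain ⟨δ, hδ, h0⟩ := near0 RH (show 0 < η / 2 by positivity)
  obtain ⟨C, hC, hG⟩ := Gs_bdd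
  obtain ⟨ρ0, h1, h2, h3⟩ := tail_small hδ (show 0 < C by linarith) (show 0 < η / 2 by positivity)
  refine ⟨ρ0, h1, h2, fun ρ hρ hρ2 => ?_⟩
  filter_upwards [h0 δ hδ le_rfl, hG, eventually_ge_atTop 10] with T hT1 hT2 hT10
  have h4 := Gs_up hT10 hρ (hρ2.trans h2) hδ.le 0
  have h5 : Ms T δ 0 ≤ 1 + η / 2 := by
    unfold Ms
    rw [zero_sub, zero_add]
    exact hT1
  have h6 := hT2 1 0 one_pos le_rfl
  have h7 : Real.exp (-((1 / ρ ^ 2 - 1) * δ ^ 2)) * Gs T 1 0 ≤ η / 2 :=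
    le_trans (by gcongr) (h3 ρ hρ hρ2)
  linarith

/-- arithmetic -/
lemma sq_aux {c S M ν C k K G0 SG : ℝ} (hc0 : 0 ≤ c) (hc1 : c ≤ 1) (hS0 : 0 ≤ S)
    (hSM : S ≤ k ^ 2 * (3 * C)) (hG0 : G0 ≤ 1 + ν ^ 2) (hSG0 : 0 ≤ SG)
    (hSG : SG ≤ S + k ^ 2 * ν ^ 2) (hν0 : 0 < ν) (hν1 : ν ≤ 1) (hC : 1 ≤ C) (hk : 0 ≤ k)
    (hkK : k ≤ K + 1) (hM : M = (3 * C + 2) * (K + 1)) :
    Real.sqrt (c * G0 * SG) ≤ Real.sqrt (c * S) + ν * M := by
  have hK : 0 ≤ K + 1 := hk.trans hkK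
  have hM0 : 0 ≤ M := by rw [hM]; positivity
  have h7 : c * G0 * SG ≤ c * S + (ν * M) ^ 2 := by
    have a1 : c * G0 * SG ≤ c * (1 + ν ^ 2) * (S + k ^ 2 * ν ^ 2) := by
      have : c * G0 ≤ c * (1 + ν ^ 2) := mul_le_mul_of_nonneg_left hG0 hc0
      exact mul_le_mul this hSG hSG0 (by positivity)
    have a2 : c * (1 + ν ^ 2) * (S + k ^ 2 * ν ^ 2) =
        c * S + ν ^ 2 * (c * S + c * (1 + ν ^ 2) * k ^ 2) := by ring
    have a3 : c * S ≤ 1 * (k ^ 2 * (3 * C)) := mul_le_mul hc1 hSM hS0 zero_le_one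
    have a4 : c * (1 + ν ^ 2) ≤ 1 * (1 + 1) :=
      mul_le_mul hc1 (by have := pow_le_one₀ (n := 2) hν0.le hν1; linarith) (by positivity)
        zero_le_one
    have a5 : c * (1 + ν ^ 2) * k ^ 2 ≤ 1 * (1 + 1) * k ^ 2 :=
      mul_le_mul_of_nonneg_right a4 (by positivity)
    have a6 : k ^ 2 ≤ (K + 1) ^ 2 := pow_le_pow_left₀ hk hkK 2
    have a7 : 3 * C + 2 ≤ (3 * C + 2) ^ 2 := by nlinarith
    have a8 : k ^ 2 * (3 * C + 2) ≤ M ^ 2 := by
      rw [hM, mul_pow, mul_comm]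
      exact mul_le_mul a7 a6 (by positivity) (by positivity)
    have a9 : ν ^ 2 * (c * S + c * (1 + ν ^ 2) * k ^ 2) ≤ ν ^ 2 * M ^ 2 := by
      refine mul_le_mul_of_nonneg_left ?_ (by positivity)
      linarith
    rw [mul_pow]
    linarith
  calc _ ≤ Real.sqrt (c * S + (ν * M) ^ 2) := Real.sqrt_le_sqrt h7
    _ ≤ Real.sqrt (c * S) + Real.sqrt ((ν * M) ^ 2) := by
        rw [Real.sqrt_le_left (by positivity)]
        have h8 := Real.sq_sqrt (show 0 ≤ c * S by positivity)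
        have h9 := Real.sq_sqrt (show 0 ≤ (ν * M) ^ 2 by positivity)
        have h10 := Real.sqrt_nonneg (c * S)
        have h11 := Real.sqrt_nonneg ((ν * M) ^ 2)
        nlinarith [mul_nonneg h10 h11]
    _ = _ := by rw [Real.sqrt_sq (by positivity)]

lemma fin_aux {ν M q : ℝ} (hν0 : 0 < ν) (hν1 : ν ≤ 1) (hq0 : 0 ≤ q) (hqM : q ≤ M) :
    (1 + ν ^ 2) * ((1 + ν ^ 2) + (q + ν * M)) ≤ 1 + q + ν * (3 + 3 * M) := by
  have hM : 0 ≤ M := hq0.trans hqM
  have h7 : ν ^ 2 ≤ ν := by nlinarith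
  have h8 : ν ^ 2 ≤ 1 := pow_le_one₀ hν0.le hν1
  have h10 : ν ^ 2 * q ≤ ν * M := mul_le_mul h7 hqM hq0 hν0.le
  have h11 : ν ^ 2 * (ν * M) ≤ 1 * (ν * M) := mul_le_mul_of_nonneg_right h8 (by positivity)
  have h12 : ν ^ 2 * ν ^ 2 ≤ ν * 1 := mul_le_mul h7 h8 (by positivity) hν0.le
  nlinarith

/-- the inequality for masses -/
theorem mass_main (RH : RiemannHypothesis) (K : ℕ) {ε : ℝ} (hε : 0 < ε) (hε1 : ε ≤ 1) :
    ∃ δ0 : ℝ, 0 < δ0 ∧ ∀ᶠ T in atTop, ∀ k : ℕ, 1 ≤ k → k ≤ K → ∀ α : Fin k → ℝ,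
      ∑ i, Ms T δ0 (α i) ≤ 1 + ε + Real.sqrt ((1 - 1 / k) *
        ∑ i, ∑ j ∈ univ.erase i, Ms T ε (α i - α j)) := by
  obtain ⟨C, hC, hG⟩ := Gs_bdd
  set M : ℝ := (3 * C + 2) * (K + 1) with hM
  have hM0 : 0 < M := by positivity
  set ν : ℝ := ε / (3 + 3 * M) with hν
  have hν0 : 0 < ν := by positivity
  have hν1 : ν ≤ 1 := by
    rw [hν, div_le_one (by positivity)]
    linarith
  have hη0 : 0 < ν ^ 2 := by positivity
  obtain ⟨ρ1, h1, h2, h3⟩ := Gs_zero RH hη0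
  obtain ⟨ρ2, h4, h5, h6⟩ := tail_small hε (show 0 < C by linarith) hη0
  set ρ : ℝ := min ρ1 ρ2 with hρ
  have hρ0 : 0 < ρ := lt_min h1 h4
  have hρ1 : ρ ≤ 1 := (min_le_left _ _).trans h2
  have htail := h6 ρ hρ0 (min_le_right _ _)
  refine ⟨ρ * ν ^ 2 / 2, by positivity, ?_⟩
  filter_upwards [hG, h3 ρ hρ0 (min_le_left _ _), eventually_ge_atTop 10] with T hGT hT0 hT10
    k hk1 hk α
  have : Nonempty (Fin k) := ⟨⟨0, hk1⟩⟩
  set δ : ℝ := ρ * ν ^ 2 / 2 with hδ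
  have hδ0 : 0 < δ := by positivity
  -- the masses are bounded by the Gaussian means
  have hlow : ∀ θ : ℝ, Ms T δ θ ≤ (1 + ν ^ 2) * Gs T ρ θ := by
    intro θ
    have h7 := Gs_low hT10 hρ0 hδ0.le θ
    have h8 : 1 ≤ (1 + ν ^ 2) * Real.exp (-(1 / ρ ^ 2) * δ ^ 2) := by
      have e1 : -(1 / ρ ^ 2) * δ ^ 2 = -(ν ^ 4 / 4) := by
        rw [hδ]
        field_simp
        ring
      have h9 := Real.add_one_le_exp (-(ν ^ 4 / 4))
      rw [e1]
      have h10 : ν ^ 4 ≤ ν ^ 2 := pow_le_pow_of_le_one hν0.le hν1 (by norm_num)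
      have h11 : ν ^ 6 ≤ ν ^ 2 := pow_le_pow_of_le_one hν0.le hν1 (by norm_num)
      calc (1 : ℝ) ≤ (1 + ν ^ 2) * (-(ν ^ 4 / 4) + 1) := by nlinarith
        _ ≤ _ := by gcongr
    have h9 := Ms_nonneg hT10 hδ0.le θ
    calc Ms T δ θ ≤ (1 + ν ^ 2) * Real.exp (-(1 / ρ ^ 2) * δ ^ 2) * Ms T δ θ := by nlinarith
      _ = (1 + ν ^ 2) * (Real.exp (-(1 / ρ ^ 2) * δ ^ 2) * Ms T δ θ) := by ring
      _ ≤ _ := by gcongr
  have hup : ∀ θ : ℝ, Gs T ρ θ ≤ Ms T ε θ + ν ^ 2 := by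
    intro θ
    have h7 := Gs_up hT10 hρ0 hρ1 hε.le θ
    have h8 := hGT 1 θ one_pos le_rfl
    have h9 : Real.exp (-((1 / ρ ^ 2 - 1) * ε ^ 2)) * Gs T 1 θ ≤ ν ^ 2 :=
      le_trans (by gcongr) htail
    linarith
  have hMs : ∀ θ : ℝ, Ms T ε θ ≤ 3 * C := by
    intro θ
    have h7 := Gs_low hT10 one_pos hε.le θ
    have h8 := hGT 1 θ one_pos le_rfl
    have h9 := Ms_nonneg hT10 hε.le θ
    have h10 : 1 ≤ 3 * Real.exp (-(1 / 1 ^ 2) * ε ^ 2) := by
      have e1 : -(1 / (1 : ℝ) ^ 2) * ε ^ 2 = -ε ^ 2 := by ring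
      rw [e1]
      have h11 : Real.exp (-1) ≤ Real.exp (-ε ^ 2) := by
        apply Real.exp_le_exp.2
        nlinarith
      have h12 : Real.exp 1 < 3 := Real.exp_one_lt_three
      have h13 : 1 / 3 ≤ Real.exp (-1) := by
        rw [Real.exp_neg, ← one_div]
        exact one_div_le_one_div_of_le (Real.exp_pos _) h12.le
      linarith
    nlinarith
  -- the sum
  set S : ℝ := ∑ i, ∑ j ∈ univ.erase i, Ms T ε (α i - α j) with hS
  have hS0 : 0 ≤ S := sum_nonneg fun i _ => sum_nonneg fun j _ => Ms_nonneg hT10 hε.le _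
  have hkK : (k : ℝ) ≤ K + 1 := by
    have : (k : ℝ) ≤ K := by exact_mod_cast hk
    linarith
  have hk0 : (1 : ℝ) ≤ k := by exact_mod_cast hk1
  have hcard : ∀ c : ℝ, 0 ≤ c → ∑ i : Fin k, ∑ _j ∈ univ.erase i, c ≤ k ^ 2 * c := by
    intro c hc
    calc ∑ i : Fin k, ∑ _j ∈ univ.erase i, c ≤ ∑ i : Fin k, ∑ _j : Fin k, c := by
          refine sum_le_sum fun i _ => sum_le_sum_of_subset_of_nonneg (erase_subset _ _) ?_
          intros; exact hc
      _ = _ := by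
          simp only [sum_const, card_univ, Fintype.card_fin, nsmul_eq_mul]
          ring
  have hSM : S ≤ k ^ 2 * (3 * C) :=
    le_trans (sum_le_sum fun i _ => sum_le_sum fun j _ => hMs _) (hcard _ (by linarith))
  set c : ℝ := 1 - 1 / (k : ℝ) with hc
  have hc0 : 0 ≤ c := by
    rw [hc, sub_nonneg, div_le_one (by linarith)]
    exact hk0
  have hc1 : c ≤ 1 := by
    rw [hc]
    have : 0 ≤ 1 / (k : ℝ) := by positivity
    linarith
  have hGsum : ∑ i, ∑ j ∈ univ.erase i, Gs T ρ (α i - α j) ≤ S + k ^ 2 * ν ^ 2 := by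
    calc _ ≤ ∑ i, ∑ j ∈ univ.erase i, (Ms T ε (α i - α j) + ν ^ 2) :=
          sum_le_sum fun i _ => sum_le_sum fun j _ => hup _
      _ = S + ∑ i : Fin k, ∑ _j ∈ univ.erase i, ν ^ 2 := by
          simp_rw [sum_add_distrib]
          rfl
      _ ≤ _ := by
          have := hcard (ν ^ 2) hη0.le
          linarith
  have hb := bes_Gs hT10 hρ0 α
  rw [Fintype.card_fin, ← hc] at hb
  have hcS : Real.sqrt (c * S) ≤ M := by
    rw [Real.sqrt_le_left hM0.le]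
    have h7 : c * S ≤ 1 * (k ^ 2 * (3 * C)) := by gcongr
    have h8 : (k : ℝ) ^ 2 ≤ (K + 1) ^ 2 := by gcongr
    have h9 : (k : ℝ) ^ 2 * (3 * C) ≤ (K + 1) ^ 2 * (3 * C) := by gcongr
    have h10 : (K + 1 : ℝ) ^ 2 * (3 * C) ≤ M ^ 2 := by
      rw [hM, mul_pow]
      have h11 : 3 * C ≤ (3 * C + 2) ^ 2 := by nlinarith
      have h12 : 0 ≤ (K + 1 : ℝ) ^ 2 := by positivity
      nlinarith
    linarith
  have hSG0 : 0 ≤ ∑ i, ∑ j ∈ univ.erase i, Gs T ρ (α i - α j) := by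
    refine sum_nonneg fun i _ => sum_nonneg fun j _ => ?_
    exact integral_nonneg fun β => mul_nonneg (Real.exp_pos _).le (Fr_nonneg hT10 _)
  obtain ⟨SG, hSGd⟩ : ∃ SG : ℝ, SG = ∑ i, ∑ j ∈ univ.erase i, Gs T ρ (α i - α j) := ⟨_, rfl⟩
  obtain ⟨G0, hG0d⟩ : ∃ G0 : ℝ, G0 = Gs T ρ 0 := ⟨_, rfl⟩
  rw [← hSGd] at hSG0 hGsum hb
  rw [← hG0d] at hT0 hb
  have hsq : Real.sqrt (c * G0 * SG) ≤ Real.sqrt (c * S) + ν * M :=
    sq_aux hc0 hc1 hS0 hSM hT0 hSG0 hGsum hν0 hν1 (by linarith) (by linarith) hkK hM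
  calc ∑ i, Ms T δ (α i) ≤ ∑ i, (1 + ν ^ 2) * Gs T ρ (α i) := sum_le_sum fun i _ => hlow _
    _ = (1 + ν ^ 2) * ∑ i, Gs T ρ (α i) := by rw [mul_sum]
    _ ≤ (1 + ν ^ 2) * ((1 + ν ^ 2) + (Real.sqrt (c * S) + ν * M)) := by
        refine mul_le_mul_of_nonneg_left ?_ (by positivity)
        linarith
    _ ≤ 1 + Real.sqrt (c * S) + ν * (3 + 3 * M) := fin_aux hν0 hν1 (Real.sqrt_nonneg _) hcS
    _ = 1 + Real.sqrt (c * S) + ε := by
        rw [hν]
        field_simp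
    _ = _ := by ring

/-- separated points of an interval -/
lemma card_sep {k : ℕ} {ε : ℝ} (hε : 0 < ε) (α : Fin k → ℝ)
    (h1 : ∀ i j, i ≠ j → ε ≤ |α i - α j|) (h2 : ∀ i j, |α i - α j| ≤ 1) :
    k ≤ 2 * ⌈1 / ε⌉₊ + 1 := by
  rcases Nat.eq_zero_or_pos k with h0 | h0
  · omega
  set i0 : Fin k := ⟨0, h0⟩
  set N : ℕ := ⌈1 / ε⌉₊ with hN
  have hNe : 1 / ε ≤ N := Nat.le_ceil _
  have hinj : Function.Injective fun i : Fin k => ⌊(α i - α i0) / ε⌋ := by
    intro i j hij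
    by_contra hne
    simp only at hij
    have h3 := h1 i j hne
    have h4 := Int.floor_le ((α i - α i0) / ε)
    have h5 := Int.lt_floor_add_one ((α i - α i0) / ε)
    have h6 := Int.floor_le ((α j - α i0) / ε)
    have h7 := Int.lt_floor_add_one ((α j - α i0) / ε)
    rw [hij] at h4 h5
    have h8 : |(α i - α i0) / ε - (α j - α i0) / ε| < 1 := by
      rw [abs_lt]
      constructor <;> linarith
    rw [← sub_div, abs_div, abs_of_pos hε, div_lt_one hε,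
      show α i - α i0 - (α j - α i0) = α i - α j by ring] at h8
    linarith
  have hmaps : ∀ i ∈ (univ : Finset (Fin k)), ⌊(α i - α i0) / ε⌋ ∈
      Finset.Icc (-(N : ℤ)) ((N : ℤ) - 1 + 1) := by
    intro i _
    have h3 : |(α i - α i0) / ε| ≤ N := by
      rw [abs_div, abs_of_pos hε]
      refine le_trans ?_ hNe
      exact div_le_div_of_nonneg_right (h2 _ _) hε.le
    have h4 := abs_le.1 h3
    rw [Finset.mem_Icc]
    constructor
    · rw [Int.le_floor]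
      push_cast
      linarith
    · have : ⌊(α i - α i0) / ε⌋ ≤ ⌊((N : ℤ) : ℝ)⌋ := by
        apply Int.floor_le_floor
        push_cast
        exact h4.2
      rw [Int.floor_intCast] at this
      omega
  have h3 := Finset.card_le_card_of_injOn _ hmaps hinj.injOn
  rw [card_univ, Fintype.card_fin, Int.card_Icc] at h3
  omega

/-- the masses near separated points in an interval of length less than one -/
theorem mass_sep (RH : RiemannHypothesis) {ε : ℝ} (hε : 0 < ε) (hε1 : ε ≤ 1) :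
    ∃ δ0 : ℝ, 0 < δ0 ∧ ∀ᶠ T in atTop, ∀ k : ℕ, ∀ α : Fin k → ℝ,
      (∀ i j, i ≠ j → ε ≤ |α i - α j| ∧ |α i - α j| ≤ 1 - ε) →
      ∑ i, Ms T δ0 (α i) ≤ 1 + ε := by
  set K : ℕ := 2 * ⌈1 / ε⌉₊ + 1 with hK
  set ε1 : ℝ := min (ε / 6) (ε ^ 2 / (48 * (K : ℝ) ^ 2)) with hε1d
  have hK1 : (1 : ℝ) ≤ K := by
    have : 1 ≤ K := by omega
    exact_mod_cast this
  have hε10 : 0 < ε1 := lt_min (by positivity) (by positivity)
  have hε16 : ε1 ≤ ε / 6 := min_le_left _ _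
  have hε1K : ε1 ≤ ε ^ 2 / (48 * (K : ℝ) ^ 2) := min_le_right _ _
  obtain ⟨δ0, hδ0, hm⟩ := mass_main RH K hε10 (by linarith)
  have hu := mass_unif RH hε10 (show 6 * ε1 ≤ ε by linarith)
  refine ⟨δ0, hδ0, ?_⟩
  filter_upwards [hm, hu, eventually_ge_atTop 10] with T hmT huT hT10 k α hα
  have hk : k ≤ K := by
    refine card_sep hε α (fun i j hij => (hα i j hij).1) fun i j => ?_
    rcases eq_or_ne i j with h | h
    · rw [h, sub_self, abs_zero]; norm_num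
    · have := (hα i j h).2
      linarith
  rcases Nat.eq_zero_or_pos k with h0 | h0
  · subst h0
    simp only [univ_eq_empty, sum_empty]
    linarith
  have h1 := hmT k h0 hk α
  have hk1 : (1 : ℝ) ≤ k := by exact_mod_cast h0
  have hkK : (k : ℝ) ≤ K := by exact_mod_cast hk
  have hS : ∑ i, ∑ j ∈ univ.erase i, Ms T ε1 (α i - α j) ≤ k ^ 2 * (12 * ε1) := by
    calc ∑ i, ∑ j ∈ univ.erase i, Ms T ε1 (α i - α j) ≤
        ∑ i : Fin k, ∑ _j ∈ univ.erase i, 12 * ε1 := by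
          refine sum_le_sum fun i _ => sum_le_sum fun j hj => ?_
          have hij : i ≠ j := by
            rintro rfl
            exact absurd hj (notMem_erase i univ)
          exact huT _ (hα i j hij).1 (hα i j hij).2
      _ ≤ ∑ i : Fin k, ∑ _j : Fin k, 12 * ε1 := by
          refine sum_le_sum fun i _ => sum_le_sum_of_subset_of_nonneg (erase_subset _ _) ?_
          intros; positivity
      _ = _ := by
          simp only [sum_const, card_univ, Fintype.card_fin, nsmul_eq_mul]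
          ring
  have hsq : Real.sqrt ((1 - 1 / k) * ∑ i, ∑ j ∈ univ.erase i, Ms T ε1 (α i - α j)) ≤ ε / 2 := by
    rw [Real.sqrt_le_left (by positivity)]
    have hS0 : 0 ≤ ∑ i, ∑ j ∈ univ.erase i, Ms T ε1 (α i - α j) :=
      sum_nonneg fun i _ => sum_nonneg fun j _ => Ms_nonneg hT10 hε10.le _
    have hc1 : 1 - 1 / (k : ℝ) ≤ 1 := by
      have : 0 ≤ 1 / (k : ℝ) := by positivity
      linarith
    calc (1 - 1 / (k : ℝ)) * ∑ i, ∑ j ∈ univ.erase i, Ms T ε1 (α i - α j) ≤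
        1 * (k ^ 2 * (12 * ε1)) := by gcongr
      _ ≤ 1 * (K ^ 2 * (12 * (ε ^ 2 / (48 * (K : ℝ) ^ 2)))) := by gcongr
      _ = (ε / 2) ^ 2 := by
          field_simp
          norm_num
  linarith

/-- the value at the origin -/
lemma Fr_zero (RH : RiemannHypothesis) {η : ℝ} (hη : 0 < η) :
    ∀ᶠ T in atTop, Fr T 0 ≤ (1 + η) * Real.log T := by
  obtain ⟨δ, hδ, h0⟩ := near0 RH (show 0 < η / 2 by positivity)
  have hlim : Tendsto (fun T : ℝ => Real.exp (-(2 * (δ * Real.log T)))) atTop (𝓝 0) := by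
    have h1 : Tendsto (fun T : ℝ => 2 * (δ * Real.log T)) atTop atTop :=
      (Real.tendsto_log_atTop.const_mul_atTop hδ).const_mul_atTop (by norm_num)
    exact Real.tendsto_exp_neg_atTop_nhds_zero.comp h1
  have hq : 0 < 1 - (1 + η / 2) / (1 + η) := by
    rw [sub_pos, div_lt_one (by positivity)]
    linarith
  filter_upwards [h0 δ hδ le_rfl, hlim.eventually (gt_mem_nhds hq), eventually_ge_atTop 10] with
    T h1 h2 hT
  have hL := one_lt_log (show 3 ≤ T by linarith)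
  have h3 := Fr_le_Ms hT hδ.le 0
  have h4 : Ms T δ 0 ≤ 1 + η / 2 := by
    unfold Ms
    rw [zero_sub, zero_add]
    exact h1
  have h5 : (1 + η / 2) / (1 + η) ≤ 1 - Real.exp (-(2 * (δ * Real.log T))) := by linarith
  have h6 := Fr_nonneg hT 0
  have h7 : (1 + η / 2) / (1 + η) / Real.log T * Fr T 0 ≤ 1 + η / 2 := by
    refine le_trans ?_ (h3.trans h4)
    gcongr
  have h8 : (1 + η / 2) / (1 + η) / Real.log T * Fr T 0 =
      (1 + η / 2) * (Fr T 0 / ((1 + η) * Real.log T)) := by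
    field_simp
  rw [h8] at h7
  have h9 : Fr T 0 / ((1 + η) * Real.log T) ≤ 1 := by
    by_contra hcon
    push Not at hcon
    nlinarith
  rwa [div_le_one (by positivity)] at h9

/-- large values at separated points -/
theorem value_sep (RH : RiemannHypothesis) {ε : ℝ} (hε : 0 < ε) (hε1 : ε ≤ 1) :
    ∀ᶠ T in atTop, ∀ k : ℕ, ∀ α : Fin k → ℝ,
      (∀ i j, i ≠ j → ε ≤ |α i - α j| ∧ |α i - α j| ≤ 1 - ε) →
      ∑ i, Fr T (α i) ≤ (1 + ε) * Real.log T := by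
  set K : ℕ := 2 * ⌈1 / ε⌉₊ + 1 with hK
  set δ : ℝ := min (ε / 6) (ε ^ 2 / (192 * (K : ℝ) ^ 2)) with hδd
  have hK1 : (1 : ℝ) ≤ K := by
    have : 1 ≤ K := by omega
    exact_mod_cast this
  have hδ0 : 0 < δ := lt_min (by positivity) (by positivity)
  have hδ6 : δ ≤ ε / 6 := min_le_left _ _
  have hδK : δ ≤ ε ^ 2 / (192 * (K : ℝ) ^ 2) := min_le_right _ _
  have hu := mass_unif RH hδ0 (show 6 * δ ≤ ε by linarith)
  have hz := Fr_zero RH (show 0 < ε / 2 by positivity)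
  have hlim : Tendsto (fun T : ℝ => Real.exp (-(2 * (δ * Real.log T)))) atTop (𝓝 0) := by
    have h1 : Tendsto (fun T : ℝ => 2 * (δ * Real.log T)) atTop atTop :=
      (Real.tendsto_log_atTop.const_mul_atTop hδ0).const_mul_atTop (by norm_num)
    exact Real.tendsto_exp_neg_atTop_nhds_zero.comp h1
  filter_upwards [hu, hz, hlim.eventually (gt_mem_nhds (show (0 : ℝ) < 1 / 2 by norm_num)),
    eventually_ge_atTop 10] with T huT hzT h2 hT10 k α hα
  have hL := one_lt_log (show 3 ≤ T by linarith)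
  have hk : k ≤ K := by
    refine card_sep hε α (fun i j hij => (hα i j hij).1) fun i j => ?_
    rcases eq_or_ne i j with h | h
    · rw [h, sub_self, abs_zero]; norm_num
    · have := (hα i j h).2
      linarith
  rcases Nat.eq_zero_or_pos k with h0 | h0
  · subst h0
    simp only [univ_eq_empty, sum_empty]
    positivity
  have : Nonempty (Fin k) := ⟨⟨0, h0⟩⟩
  have hk1 : (1 : ℝ) ≤ k := by exact_mod_cast h0
  have hkK : (k : ℝ) ≤ K := by exact_mod_cast hk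
  have h1 := bes_Fr hT10 α
  rw [Fintype.card_fin] at h1
  have hd : ∀ θ : ℝ, ε ≤ |θ| → |θ| ≤ 1 - ε → Fr T θ ≤ 24 * δ * Real.log T := by
    intro θ h3 h4
    have h5 := huT θ h3 h4
    have h6 := Fr_le_Ms hT10 hδ0.le θ
    have h7 := Fr_nonneg hT10 θ
    have h8 : 1 / 2 / Real.log T * Fr T θ ≤ 12 * δ := by
      refine le_trans ?_ (h6.trans h5)
      gcongr
      linarith
    rw [div_mul_eq_mul_div, div_le_iff₀ (by linarith)] at h8
    linarith
  have hS : ∑ i, ∑ j ∈ univ.erase i, Fr T (α i - α j) ≤ k ^ 2 * (24 * δ * Real.log T) := by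
    calc ∑ i, ∑ j ∈ univ.erase i, Fr T (α i - α j) ≤
        ∑ i : Fin k, ∑ _j ∈ univ.erase i, 24 * δ * Real.log T := by
          refine sum_le_sum fun i _ => sum_le_sum fun j hj => ?_
          have hij : i ≠ j := by
            rintro rfl
            exact absurd hj (notMem_erase i univ)
          exact hd _ (hα i j hij).1 (hα i j hij).2
      _ ≤ ∑ i : Fin k, ∑ _j : Fin k, 24 * δ * Real.log T := by
          refine sum_le_sum fun i _ => sum_le_sum_of_subset_of_nonneg (erase_subset _ _) ?_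
          intros; positivity
      _ = _ := by
          simp only [sum_const, card_univ, Fintype.card_fin, nsmul_eq_mul]
          ring
  have hsq : Real.sqrt ((1 - 1 / k) * Fr T 0 * ∑ i, ∑ j ∈ univ.erase i, Fr T (α i - α j)) ≤
      ε / 2 * Real.log T := by
    rw [Real.sqrt_le_left (by positivity)]
    have hS0 : 0 ≤ ∑ i, ∑ j ∈ univ.erase i, Fr T (α i - α j) :=
      sum_nonneg fun i _ => sum_nonneg fun j _ => Fr_nonneg hT10 _
    have hc1 : 1 - 1 / (k : ℝ) ≤ 1 := by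
      have : 0 ≤ 1 / (k : ℝ) := by positivity
      linarith
    have hF0 := Fr_nonneg hT10 0
    have h5 : Fr T 0 ≤ 2 * Real.log T := by nlinarith
    obtain ⟨SF, hSFd⟩ : ∃ SF : ℝ, SF = ∑ i, ∑ j ∈ univ.erase i, Fr T (α i - α j) := ⟨_, rfl⟩
    rw [← hSFd] at hS0 hS ⊢
    have hk2 : (k : ℝ) ^ 2 ≤ K ^ 2 := pow_le_pow_left₀ (by linarith) hkK 2
    have hc0 : 0 ≤ 1 - 1 / (k : ℝ) := by
      rw [sub_nonneg, div_le_one (by linarith)]
      exact hk1
    have b1 : (1 - 1 / (k : ℝ)) * Fr T 0 ≤ 1 * (2 * Real.log T) :=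
      mul_le_mul hc1 h5 hF0 zero_le_one
    have b2 : (k : ℝ) ^ 2 * (24 * δ * Real.log T) ≤
        K ^ 2 * (24 * (ε ^ 2 / (192 * (K : ℝ) ^ 2)) * Real.log T) := by
      refine mul_le_mul hk2 ?_ (by positivity) (by positivity)
      refine mul_le_mul_of_nonneg_right ?_ (by linarith)
      linarith
    have b3 : (1 - 1 / (k : ℝ)) * Fr T 0 * SF ≤
        1 * (2 * Real.log T) * (K ^ 2 * (24 * (ε ^ 2 / (192 * (K : ℝ) ^ 2)) * Real.log T)) :=
      mul_le_mul b1 (hS.trans b2) hS0 (by positivity)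
    refine b3.trans (le_of_eq ?_)
    field_simp
    norm_num
  have := hzT
  nlinarith

end Pool.Agent.Zk93.PC
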